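import Pool.Agent.Lib.H53N.T

set_option autoImplicit false

/-!
# H36T: ordinary primes of degree one, definitions

`omegaD p I` : the number of prime factors of `I` of norm `p`, with multiplicity.
`StHT F` : the main theorem for rational integral coefficients.
`KArr.q3` : the integer `N(ξ)³ Tr(ξ⁻³)`; `KArr.ht` : the series `Σ c(ξ) N(ξ)² Tr(ξ⁻³) q^(tr ξ)`.
-/

open NumberField UniqueFactorizationMonoid

namespace H36H

open scoped Classical in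
/-- The number of prime factors of `I` of norm `p`, with multiplicity. -/
noncomputable def omegaD {F : Type*} [Field F] [NumberField F] (p : ℕ) (I : Ideal (𝓞 F)) : ℕ :=
  (normalizedFactors I).countP (fun P => Ideal.absNorm P = p)

/-- The statement of the main theorem for rational integral coefficients, degree one. -/
def StHT (F : Type*) [Field F] [NumberField F] : Prop :=
  ∀ (k : ℕ), 4 ≤ k → ∀ N : ℕ, 0 < N → ∀ c : 𝓞 F → ℤ, c 1 ≠ 0 →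
    (∀ ε : 𝓞 F, IsUnit ε → (∀ φ : F →+* ℝ, 0 < φ ε) → c ε = c 1) →
    IsDiagCusp1 N k (fun ξ => (c ξ : ℂ)) → ∀ η : ℝ, η < 1 / (Module.finrank ℚ F : ℝ) →
    ¬ ∃ K : ℝ, ∀ X : ℕ, (Set.ncard {p : ℕ | p ≤ X ∧ p.Prime ∧
      ¬ ∀ ξ : TotPos F, (p : ℤ) ^ omegaD p (Ideal.span {ξ.1}) ∣ c ξ.1} : ℝ) ≤ K * (X : ℝ) ^ η

section Arr

open H53M H94M Function PowerSeries

variable {ι Λ : Type*} [Fintype ι] [DecidableEq ι]

/-- The polynomial `Σ_i Π_{j ≠ i} X_j³`. -/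
noncomputable def symT (ι : Type*) [Fintype ι] [DecidableEq ι] : MvPolynomial ι ℤ :=
  ∑ i : ι, ∏ j ∈ Finset.univ.erase i, MvPolynomial.X j ^ 3

theorem symT_symm : (symT ι).IsSymmetric := by
  intro τ
  unfold symT
  simp only [map_sum, map_prod, map_pow, MvPolynomial.rename_X]
  rw [← Equiv.sum_comp τ (fun i => ∏ j ∈ Finset.univ.erase i, (MvPolynomial.X j : MvPolynomial ι ℤ) ^ 3)]
  refine Finset.sum_congr rfl fun i _ => ?_
  refine Finset.prod_bij (fun j _ => τ j) ?_ ?_ ?_ ?_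
  · intro j hj
    rw [Finset.mem_erase] at hj ⊢
    exact ⟨fun h => hj.1 (τ.injective h), Finset.mem_univ _⟩
  · intro a _ b _ h
    exact τ.injective h
  · intro b hb
    rw [Finset.mem_erase] at hb
    refine ⟨τ.symm b, Finset.mem_erase.2 ⟨fun h => hb.1 ?_, Finset.mem_univ _⟩, τ.apply_symm_apply b⟩
    rw [← h, τ.apply_symm_apply]
  · intro j _
    rfl

theorem KArr.exists_q3_aux (A : KArr ι Λ) (ξ : Λ) :
    ∃ m : ℤ, (m : ℝ) = ∑ i, ∏ j ∈ Finset.univ.erase i, A.nu ξ j ^ 3 := by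
  obtain ⟨Q, hQ⟩ := MvPolynomial.esymmAlgHom_surjective (σ := ι) (R := ℤ) (n := Fintype.card ι)
    le_rfl ⟨symT ι, symT_symm⟩
  have h1 : MvPolynomial.aeval (fun i : Fin (Fintype.card ι) => MvPolynomial.esymm ι ℤ (i + 1)) Q =
      symT ι := by
    rw [← MvPolynomial.esymmAlgHom_apply, hQ]
  refine ⟨MvPolynomial.aeval (fun i : Fin (Fintype.card ι) => A.es ξ (i + 1)) Q, ?_⟩
  have h2 : MvPolynomial.aeval (A.nu ξ) (symT ι) =
      ∑ i, ∏ j ∈ Finset.univ.erase i, A.nu ξ j ^ 3 := by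
    unfold symT
    simp
  rw [← h2, ← h1]
  have h3 : (MvPolynomial.aeval (A.nu ξ)).comp (MvPolynomial.aeval
      (fun i : Fin (Fintype.card ι) => MvPolynomial.esymm ι ℤ (i + 1))) =
      ((Int.castRingHom ℝ).toIntAlgHom).comp (MvPolynomial.aeval
        (fun i : Fin (Fintype.card ι) => A.es ξ (i + 1))) := by
    refine MvPolynomial.algHom_ext fun i => ?_
    simp only [AlgHom.comp_apply, MvPolynomial.aeval_X]
    rw [A.es_eq]
    rfl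
  exact (DFunLike.congr_fun h3 Q).symm

omit [DecidableEq ι] in
theorem KArr.exists_q3 (A : KArr ι Λ) (ξ : Λ) :
    ∃ m : ℤ, (m : ℝ) = (∏ i, A.nu ξ i) ^ 3 * ∑ i, (A.nu ξ i ^ 3)⁻¹ := by
  classical
  obtain ⟨m, hm⟩ := A.exists_q3_aux ξ
  refine ⟨m, ?_⟩
  rw [hm, Finset.mul_sum]
  refine Finset.sum_congr rfl fun i _ => ?_
  have hi := A.nu_pos ξ i
  rw [← Finset.mul_prod_erase _ _ (Finset.mem_univ i), mul_pow, Finset.prod_pow]
  field_simp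

/-- The integer `N(ξ)³ Tr(ξ⁻³)`. -/
noncomputable def KArr.q3 (A : KArr ι Λ) (ξ : Λ) : ℤ := (A.exists_q3 ξ).choose

omit [DecidableEq ι] in
theorem KArr.q3_eq (A : KArr ι Λ) (ξ : Λ) :
    (A.q3 ξ : ℝ) = (∏ i, A.nu ξ i) ^ 3 * ∑ i, (A.nu ξ i ^ 3)⁻¹ := (A.exists_q3 ξ).choose_spec

/-- The rational series `Σ_ξ c(ξ) q3(ξ)/N(ξ) q^(tr ξ)`. -/
noncomputable def KArr.ht (A : KArr ι Λ) : PowerSeries ℚ :=
  PowerSeries.mk fun n => ∑ ξ ∈ A.fib n, (A.c ξ * A.q3 ξ : ℚ) / A.nm ξ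

/-- The integral series `Σ_ξ c(ξ) q3(ξ) N(ξ)^(p-2) q^(tr ξ)`. -/
noncomputable def KArr.gt (A : KArr ι Λ) (p : ℕ) : PowerSeries ℤ :=
  PowerSeries.mk fun n => ∑ ξ ∈ A.fib n, A.c ξ * (A.q3 ξ * A.nm ξ ^ (p - 2))

/-- The exponent vector `(p + 1, .., p - 2, .., p + 1)`. -/
def at3 (p : ℕ) (j : ι) : ι → ℕ := update (fun _ => p + 1) j (p - 2)

/-- `κ = 1/(2πi)`. -/
noncomputable def zk : ℂ := 1 / (2 * Real.pi * Complex.I)

/-- The factor `y² + 2 (k + 1) κ y X + k (k + 1) κ² X²`. -/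
noncomputable def zf (k : ℕ) (y : ℂ) : Polynomial ℂ :=
  Polynomial.C (y ^ 2) + Polynomial.C (2 * ((k : ℂ) + 1) * zk * y) * Polynomial.X +
    Polynomial.C ((k : ℂ) * ((k : ℂ) + 1) * zk ^ 2) * Polynomial.X ^ 2

namespace KArr

/-- The polynomial `Π_{j ≠ i} ((ν_j/N)² + 2 (k + 1) κ (ν_j/N) X + k (k + 1) κ² X²)`. -/
noncomputable def zQ (A : KArr ι Λ) (N k : ℕ) (i : ι) (ξ : Λ) : Polynomial ℂ :=
  ∏ j ∈ Finset.univ.erase i, zf k ((A.nu ξ j : ℂ) / (N : ℂ))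

/-- The coefficients `c(ξ) e(σ tr(ξ)/N) Q(x)`. -/
noncomputable def zc (A : KArr ι Λ) (N k : ℕ) (σ : ℤ) (i : ι) (x : ℂ) (ξ : Λ) : ℂ :=
  (A.c ξ : ℂ) * X.ex ((σ : ℂ) * (A.tr ξ : ℂ) / (N : ℂ)) * (A.zQ N k i ξ).eval x

/-- The coefficients `c(ξ) e(-tr(ξ)/N) Q_m`. -/
noncomputable def zcm (A : KArr ι Λ) (N k : ℕ) (i : ι) (m : ℕ) (ξ : Λ) : ℂ :=
  (A.c ξ : ℂ) * X.ex (((-1 : ℤ) : ℂ) * (A.tr ξ : ℂ) / (N : ℂ)) * (A.zQ N k i ξ).coeff m

/-- The polynomial part `P_t` of the transformation of `ht`. -/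
noncomputable def zP (A : KArr ι Λ) (N k : ℕ) (t : ℂ) : Polynomial ℂ :=
  ∑ i : ι, ∑ l ∈ Finset.range (k - 1), ∑ m ∈ Finset.range (2 * Fintype.card ι),
    Polynomial.C ((N : ℂ) ^ (2 * Fintype.card ι - 3) * (2 * Real.pi * Complex.I * X.co (k - 1) l *
      X.F (A.zcm N k i m) (A.xu N i) (A.xv N i) (l + 1) t t)) *
      Polynomial.X ^ (l + m)

/-- The transcendental part `y(t,x) = Σ_i L`. -/
noncomputable def zY (A : KArr ι Λ) (N k : ℕ) (t x : ℂ) : ℂ :=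
  ∑ i : ι, X.L (A.zc N k (-1) i x) (A.xu N i) (A.xv N i) (k - 1) t

/-- The coefficients of the almost periodic function `M ↦ y(t + N M, 0)`. -/
noncomputable def zb (A : KArr ι Λ) (N k : ℕ) (t : ℂ) (p : ι × Λ) : ℂ :=
  A.zc N k (-1) p.1 0 p.2 * ((A.xv N p.1 p.2 : ℂ)⁻¹) ^ (k - 1) * X.ex ((A.xu N p.1 p.2 : ℂ) * t)

end KArr

/-- The constant in front of `y`. -/
noncomputable def kapT (N d k : ℕ) : ℂ :=
  -((N : ℂ) ^ (2 * d - 3) * (2 * Real.pi * Complex.I * X.co (k - 1) (k - 2)))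

open scoped Classical in
/-- The weights of the terms at the totally positive units. -/
noncomputable def zuW {F : Type*} [Field F] [NumberField F] (N k : ℕ) (i : F →+* ℝ) (ξ : TotPos F) :
    ℝ :=
  (∏ j ∈ Finset.univ.erase i, (j (ξ.1 : F) / N) ^ 2) * ((i (ξ.1 : F) / N)⁻¹) ^ (k - 1)

end Arr

end H36H
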