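import Pool.Agent.Lib.H36T.U1

set_option autoImplicit false

/-!
# H36T, chunk U2 (S): nonvanishing

COPY of `karr_hne1` (end of Lib/H53N/C.lean) with `zb`, `zb_eq`, `zuW`, `zuW_pos`, `zuW_le`.
-/

open NumberField

namespace H36H

open H53M Filter Topology

variable {F : Type*} [Field F] [NumberField F] [IsTotallyReal F]

open scoped Classical in
/-- **Nonvanishing** for module X. -/
theorem karr_hneT (hd : 1 < Module.finrank ℚ F) {N k : ℕ} (hN : 0 < N) {c : 𝓞 F → ℤ}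
    (h : IsDiagCusp1 N k (fun ξ => (c ξ : ℂ))) (hc1 : c 1 ≠ 0)
    (hu : ∀ ε : 𝓞 F, IsUnit ε → (∀ φ : F →+* ℝ, 0 < φ ε) → c ε = c 1) :
    ∀ᶠ y : ℝ in atTop, ∃ φ : ℝ, Irrational φ ∧
      (∑' p : (F →+* ℝ) × TotPos F, if ∃ m : ℤ, -((karr1 h).nu p.2 p.1) - φ = m then
        (karr1 h).zb N k (1 + N * (Complex.I * y)) p else 0) ≠ 0 := by
  obtain ⟨θ, hθ, hev⟩ := xu_main hd c hc1 hu (karr1 h).c_le (zuW N k) (fun i ξ => zuW_pos hN k i ξ)
    (zuW_le hN k) (-(1 / N))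
  filter_upwards [hev] with y hy
  refine ⟨-θ, hθ.neg, ?_⟩
  have h1 := tsum_subtype (f := fun p : (F →+* ℝ) × TotPos F =>
    (karr1 h).zb N k (1 + N * (Complex.I * y)) p)
    {x : (F →+* ℝ) × TotPos F | ∃ m : ℤ, x.1 x.2.1 = θ + m}
  have h2 : (∑' p : (F →+* ℝ) × TotPos F, if ∃ m : ℤ, -((karr1 h).nu p.2 p.1) - -θ = m then
        (karr1 h).zb N k (1 + N * (Complex.I * y)) p else 0) =
      ∑' x : XP F θ, xuTerm c (zuW N k) (-(1 / N)) y x.1.1 x.1.2 := by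
    have h3 : ∑' x : XP F θ, xuTerm c (zuW N k) (-(1 / N)) y x.1.1 x.1.2 =
        ∑' x : ({x : (F →+* ℝ) × TotPos F | ∃ m : ℤ, x.1 x.2.1 = θ + m} : Set _),
          (karr1 h).zb N k (1 + N * (Complex.I * y)) x := by
      refine tsum_congr fun x => ?_
      exact (zb_eq hN h y x.1.1 x.1.2).symm
    rw [h3, h1]
    refine tsum_congr fun p => ?_
    by_cases hp : ∃ m : ℤ, p.1 p.2.1 = θ + m
    · rw [Set.indicator_of_mem (s := {x : (F →+* ℝ) × TotPos F | ∃ m : ℤ, x.1 x.2.1 = θ + m})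
        hp, if_pos]
      obtain ⟨m, hm⟩ := hp
      refine ⟨-m, ?_⟩
      change -(p.1 (p.2.1 : F)) - -θ = _
      rw [hm]
      push_cast
      ring
    · rw [Set.indicator_of_notMem (s := {x : (F →+* ℝ) × TotPos F | ∃ m : ℤ, x.1 x.2.1 = θ + m})
        hp, if_neg]
      rintro ⟨m, hm⟩
      apply hp
      refine ⟨-m, ?_⟩
      change -(p.1 (p.2.1 : F)) - -θ = _ at hm
      push_cast
      linarith
  rw [h2]
  exact hy.2

end H36H
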