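import Pool.Agent.Lib.H36T.X3
import Pool.Agent.Lib.H36H.XY1

set_option autoImplicit false

/-!
# H36T, chunk X10 (M): `y(t_M, x_M) - y(t_M, 0) → 0`

As `KArr.xY_diff` (Lib/H36H/XY1.lean): dominated convergence. The term of the difference is
`(zc (x_M) - zc 0) v^{-(k-1)} e(u t_M)`. For `‖x_M‖ ≤ 1` its norm is at most
`2 C |c| (1 + s)^(2d) v^{-(k-1)} exp(-2π u Im t)`, `C = 2 d 2^(2d) (k+1)^(2d)` (`zQ_eval_le`, `KArr.XF_ex`,
`xy1_norm_ex`), summable by `KArr.zpow_sum`. For fixed `ξ` the map `x ↦ zc .. x ξ` is continuous (a polynomial).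
`inv_tendsto_xt`, `xy1_im` are in XY1.lean.
-/

namespace H36H

open H53M H94M Function Filter Topology

variable {ι Λ : Type*} [Fintype ι] [DecidableEq ι]

theorem KArr.zY_diff (A : KArr ι Λ) {N k : ℕ} (hN : 0 < N) (hd : 2 ≤ Fintype.card ι)
    (hf : A.XFam k) {t : ℂ} (ht : 0 < t.im) :
    Tendsto (fun M : ℕ => A.zY N k (t + N * (M : ℂ)) (t + N * (M : ℂ))⁻¹ -
      A.zY N k (t + N * (M : ℂ)) 0) atTop (𝓝 0) := by
  have hx := inv_tendsto_xt hN t
  obtain ⟨D, hD⟩ : ∃ D, D = 2 * Fintype.card ι := ⟨_, rfl⟩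
  obtain ⟨B, hB⟩ : ∃ B : ℝ, B = 2 * Fintype.card ι * 2 ^ D * ((k : ℝ) + 1) ^ D := ⟨_, rfl⟩
  have hB0 : 0 ≤ B := by
    rw [hB]
    positivity
  have hzc : ∀ (i : ι) (x : ℂ) (ξ : Λ), ‖x‖ ≤ 1 → ‖A.zc N k (-1) i x ξ‖ ≤
      |(A.c ξ : ℝ)| * (B * (1 + ((A.tr ξ : ℝ) - A.nu ξ i)) ^ D) := by
    intro i x ξ hx1
    unfold KArr.zc
    rw [norm_mul, norm_mul, KArr.XF_ex, mul_one, Complex.norm_intCast]
    refine mul_le_mul_of_nonneg_left ?_ (abs_nonneg _)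
    refine (zQ_eval_le A hN k i ξ x).trans ?_
    rw [← hD, hB]
    have hs : 0 ≤ 1 + ((A.tr ξ : ℝ) - A.nu ξ i) := by
      have := A.XF_nonneg i ξ
      linarith
    have h1 : (1 + ‖x‖) ^ D ≤ 2 ^ D := by
      refine pow_le_pow_left₀ (by positivity) ?_ D
      linarith
    have h2 : 0 ≤ ((k : ℝ) + 1) ^ D * (1 + ((A.tr ξ : ℝ) - A.nu ξ i)) ^ D :=
      mul_nonneg (by positivity) (pow_nonneg hs D)
    calc 2 * (Fintype.card ι : ℝ) * (1 + ‖x‖) ^ D *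
          (((k : ℝ) + 1) ^ D * (1 + ((A.tr ξ : ℝ) - A.nu ξ i)) ^ D)
        ≤ 2 * (Fintype.card ι : ℝ) * 2 ^ D *
          (((k : ℝ) + 1) ^ D * (1 + ((A.tr ξ : ℝ) - A.nu ξ i)) ^ D) := by
          refine mul_le_mul_of_nonneg_right ?_ h2
          exact mul_le_mul_of_nonneg_left h1 (by positivity)
      _ = _ := by ring
  have hi : ∀ i : ι, Tendsto (fun M : ℕ =>
      X.L (A.zc N k (-1) i (t + N * (M : ℂ))⁻¹) (A.xu N i) (A.xv N i) (k - 1)
        (t + N * (M : ℂ)) -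
      X.L (A.zc N k (-1) i 0) (A.xu N i) (A.xv N i) (k - 1) (t + N * (M : ℂ)))
      atTop (𝓝 0) := by
    intro i
    have hsub : ∀ M : ℕ, X.L (A.zc N k (-1) i (t + N * (M : ℂ))⁻¹) (A.xu N i) (A.xv N i)
        (k - 1) (t + N * (M : ℂ)) -
        X.L (A.zc N k (-1) i 0) (A.xu N i) (A.xv N i) (k - 1) (t + N * (M : ℂ)) =
        ∑' ξ, (A.zc N k (-1) i (t + N * (M : ℂ))⁻¹ ξ - A.zc N k (-1) i 0 ξ) *
          ((A.xv N i ξ : ℂ)⁻¹) ^ (k - 1) * X.ex ((A.xu N i ξ : ℂ) * (t + N * (M : ℂ))) := by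
      intro M
      have him : 0 < (t + N * (M : ℂ)).im := by
        rw [xy1_im]
        exact ht
      unfold X.L
      rw [← Summable.tsum_sub (X.summable_L (A.zfam hN hd hf _ i _) him)
        (X.summable_L (A.zfam hN hd hf _ i _) him)]
      refine tsum_congr fun ξ => ?_
      ring
    simp_rw [hsub]
    have hb := (A.zpow_sum hN hd hf i D ht).mul_left (2 * B)
    have key := tendsto_tsum_of_dominated_convergence (𝓕 := atTop) (f := fun (M : ℕ) (ξ : Λ) =>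
      (A.zc N k (-1) i (t + N * (M : ℂ))⁻¹ ξ - A.zc N k (-1) i 0 ξ) *
          ((A.xv N i ξ : ℂ)⁻¹) ^ (k - 1) * X.ex ((A.xu N i ξ : ℂ) * (t + N * (M : ℂ))))
      (g := fun _ => (0 : ℂ)) hb ?_ ?_
    · rwa [tsum_zero] at key
    · intro ξ
      rw [tendsto_zero_iff_norm_tendsto_zero]
      simp_rw [norm_mul, xy1_norm_ex]
      have hcont : Continuous fun a : ℂ => A.zc N k (-1) i a ξ := by
        unfold KArr.zc
        exact continuous_const.mul (Polynomial.continuous _)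
      have h2 := (hcont.tendsto 0).comp hx
      have h3 : Tendsto (fun M : ℕ => ‖A.zc N k (-1) i (t + N * (M : ℂ))⁻¹ ξ -
          A.zc N k (-1) i 0 ξ‖) atTop (𝓝 0) := by
        have h4 := (h2.sub_const (A.zc N k (-1) i 0 ξ)).norm
        rw [sub_self, norm_zero] at h4
        exact h4
      have h5 := (h3.mul_const (‖((A.xv N i ξ : ℂ)⁻¹) ^ (k - 1)‖)).mul_const
        (Real.exp (-(2 * Real.pi * A.xu N i ξ * t.im)))
      rw [zero_mul, zero_mul] at h5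
      exact h5
    · have h1 : ∀ᶠ M : ℕ in atTop, ‖(t + N * (M : ℂ))⁻¹‖ ≤ 1 := by
        have h2 := hx.norm
        rw [norm_zero] at h2
        exact h2.eventually_le_const one_pos
      filter_upwards [h1] with M hM ξ
      rw [norm_mul, norm_mul, xy1_norm_ex]
      have hv : 0 ≤ (A.xv N i ξ)⁻¹ :=
        inv_nonneg.2 (div_nonneg (A.nu_pos ξ i).le (Nat.cast_nonneg _))
      have e1 : ‖((A.xv N i ξ : ℂ)⁻¹) ^ (k - 1)‖ = (A.xv N i ξ)⁻¹ ^ (k - 1) := by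
        rw [norm_pow, ← Complex.ofReal_inv, Complex.norm_real, Real.norm_of_nonneg hv]
      rw [e1]
      have e2 : ‖A.zc N k (-1) i (t + N * (M : ℂ))⁻¹ ξ - A.zc N k (-1) i 0 ξ‖ ≤
          2 * B * (|(A.c ξ : ℝ)| * (1 + ((A.tr ξ : ℝ) - A.nu ξ i)) ^ D) := by
        refine (norm_sub_le _ _).trans ?_
        have a1 := hzc i (t + N * (M : ℂ))⁻¹ ξ hM
        have a2 := hzc i 0 ξ (by
          rw [norm_zero]
          exact zero_le_one)
        calc _ ≤ |(A.c ξ : ℝ)| * (B * (1 + ((A.tr ξ : ℝ) - A.nu ξ i)) ^ D) +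
              |(A.c ξ : ℝ)| * (B * (1 + ((A.tr ξ : ℝ) - A.nu ξ i)) ^ D) := add_le_add a1 a2
          _ = _ := by ring
      calc _ ≤ 2 * B * (|(A.c ξ : ℝ)| * (1 + ((A.tr ξ : ℝ) - A.nu ξ i)) ^ D) *
            (A.xv N i ξ)⁻¹ ^ (k - 1) * Real.exp (-(2 * Real.pi * A.xu N i ξ * t.im)) :=
            mul_le_mul_of_nonneg_right (mul_le_mul_of_nonneg_right e2 (pow_nonneg hv _))
              (Real.exp_pos _).le
        _ = _ := by ring
  have hsum := tendsto_finsetSum (Finset.univ : Finset ι) fun i _ => hi i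
  rw [Finset.sum_const_zero] at hsum
  refine hsum.congr fun M => ?_
  unfold KArr.zY
  rw [Finset.sum_sub_distrib]

end H36H
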