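import Pool.Agent.Lib.H36T.X3
import Pool.Agent.Lib.H36H.XS

set_option autoImplicit false

/-!
# H36T, chunk X11 (S): `M ↦ y(t + N M, 0)` is almost periodic

COPY of Lib/H36H/XY2.lean with `zc`, `zfam`, `zb`, `zY`.
-/

namespace H36H

open H53M H94M Function Filter Topology

variable {ι Λ : Type*} [Fintype ι] [DecidableEq ι]

theorem KArr.zb_summable (A : KArr ι Λ) {N k : ℕ} (hN : 0 < N) (hd : 2 ≤ Fintype.card ι)
    (hf : A.XFam k) {t : ℂ} (ht : 0 < t.im) : Summable fun p : ι × Λ => ‖A.zb N k t p‖ := by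
  refine (summable_prod_of_nonneg (fun p => norm_nonneg _)).2 ⟨fun i => ?_, Summable.of_finite⟩
  exact (X.summable_L (A.zfam hN hd hf (-1) i 0) ht).norm

theorem KArr.zY_zero (A : KArr ι Λ) {N k : ℕ} (hN : 0 < N) (hd : 2 ≤ Fintype.card ι)
    (hf : A.XFam k) {t : ℂ} (ht : 0 < t.im) (M : ℕ) :
    A.zY N k (t + N * (M : ℂ)) 0 =
      ∑' p : ι × Λ, A.zb N k t p * X.ex (((-(A.nu p.2 p.1) : ℝ) : ℂ) * (M : ℂ)) := by
  have hs : Summable fun p : ι × Λ =>
      A.zb N k t p * X.ex (((-(A.nu p.2 p.1) : ℝ) : ℂ) * (M : ℂ)) := by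
    refine Summable.of_norm_bounded (A.zb_summable hN hd hf ht) fun p => ?_
    rw [norm_mul, X.norm_ex]
    have e : (((-(A.nu p.2 p.1) : ℝ) : ℂ) * (M : ℂ)).im = 0 := by
      have e1 : ((-(A.nu p.2 p.1) : ℝ) : ℂ) * (M : ℂ) = ((-(A.nu p.2 p.1) * M : ℝ) : ℂ) := by
        push_cast
        ring
      rw [e1, Complex.ofReal_im]
    rw [e]
    simp
  rw [hs.tsum_prod, tsum_fintype]
  unfold KArr.zY X.L
  refine Finset.sum_congr rfl fun i _ => ?_
  refine tsum_congr fun ξ => ?_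
  rw [A.xu_shift hN]
  unfold KArr.zb
  ring

end H36H
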