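import Pool.Agent.Lib.H36T.X9
import Pool.Agent.Lib.H36T.X10
import Pool.Agent.Lib.H36T.X11

set_option autoImplicit false

/-!
# H36T, chunk X12 (M): module X, assembly

COPY of `KArr.not_rel_of_clusters1` and `KArr.not_rel1` (end of Lib/H53N/X.lean) with `ht`, `ht_Cv`, `ht_trans`, `zP`,
`zP_shift`, `kapT`, `kapT_ne`, `zY`, `zb`, `zb_summable`, `zY_diff`, `zY_zero`.
-/

namespace H36H

open H53M H94M H53N H53M.X Function Filter Topology

variable {ι Λ : Type*} [Fintype ι] [DecidableEq ι]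

theorem KArr.not_rel_of_clustersT {N k v : ℕ} (hN : 0 < N) (hk : 2 ≤ k) (A : KArr ι Λ)
    (hd : 2 ≤ Fintype.card ι) (hw : v + 6 = Fintype.card ι * k + 4 * Fintype.card ι)
    (hT : DTransI1 N k A.G) (hf : A.XFam k)
    (hcl : ∀ᶠ y : ℝ in atTop, {z : ℂ | MapClusterPt z atTop (fun M : ℕ =>
      A.zY N k (1 + N * (Complex.I * y) + N * (M : ℂ))
        (1 + N * (Complex.I * y) + N * (M : ℂ))⁻¹)}.Infinite) :
    ¬ Rel v (A.ht ^ 2) := by
  rintro ⟨W, S, g, hS, ⟨t₀, ht₀, hg₀⟩, h0⟩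
  refine hg₀ (triang W v S g hS (fun y => ev (ktoC (toQ dl)) (Complex.I * (y : ℂ)))
    (fun y => ev (ktoC (toQ e4)) (Complex.I * (y : ℂ))) dl_tendsto dl_ne e4_tendsto ?_ t₀ ht₀)
  filter_upwards [hcl, eventually_gt_atTop (0 : ℝ)] with y hy hy0
  intro i j
  set τ : ℂ := Complex.I * (y : ℂ) with hτdef
  have hτ : 0 < τ.im := by
    rw [hτdef]
    simpa using hy0
  have hN' := XN5_Nne hN
  set t : ℂ := 1 + N * τ with htdef
  have ht : 0 < t.im := XNFin_im hN hy0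
  have htM : ∀ M : ℕ, 0 < (t + N * (M : ℂ)).im := by
    intro M
    have e : t + N * (M : ℂ) = t + ((N * M : ℕ) : ℂ) := by push_cast; ring
    rw [e, Complex.add_im, Complex.natCast_im, add_zero]
    exact ht
  have hne : ∀ M : ℕ, t + N * (M : ℂ) ≠ 0 := fun M => X3_ne (htM M)
  refine elim2 S (fun s => (g s : ℂ) * (ev (ktoC (toQ dl)) τ ^ s.2.2 *
      ev (ktoC (toQ e4)) τ ^ (3 * (W - s.1 - v * s.2.1 - s.2.2))))
    (ev (ktoC (toQ e2)) τ) (12 / (2 * Real.pi * Complex.I) * N) (kapT N (Fintype.card ι) k)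
    (mul_ne_zero (div_ne_zero (by norm_num) two_pi_I_ne) hN') (kapT_ne hN _ hk)
    (A.zP N k t) (k - 2)
    (fun M => (t + N * (M : ℂ))⁻¹)
    (fun M => A.zY N k (t + N * (M : ℂ)) (t + N * (M : ℂ))⁻¹)
    (fun M => inv_ne_zero (hne M)) (inv_tendsto_xt hN t) hy ?_ i j
  intro M
  have hz : 0 < (τ + (M : ℂ)).im := by
    rw [Complex.add_im, Complex.natCast_im, add_zero]
    exact hτ
  have e0 : t + N * (M : ℂ) = (N : ℂ) * (τ + (M : ℂ)) + 1 := by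
    rw [htdef]
    ring
  have hz1 : (N : ℂ) * (τ + (M : ℂ)) + 1 ≠ 0 := XN4_ne hz N
  have e1 : (1 + -1 / (t + N * (M : ℂ))) / N =
      (τ + (M : ℂ)) / ((N : ℂ) * (τ + (M : ℂ)) + 1) := by
    rw [e0]
    field_simp
    ring
  have hgam : 0 < ((τ + (M : ℂ)) / ((N : ℂ) * (τ + (M : ℂ)) + 1)).im := by
    rw [XN4_gam hz]
    exact X13_im (XN4_im hz N)
  have hcv : Cv (ktoC (A.ht ^ 2)) := by
    rw [map_pow]
    exact Cv_pow (A.ht_Cv hk hd hf) 2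
  have hr := rel_eval hcv h0 hgam
  rw [map_pow, ev_pow (A.ht_Cv hk hd hf) 2 hgam] at hr
  have hh := A.ht_trans hN hk hd hw hT hf (htM M)
  rw [e1, A.zP_shift hN t M] at hh
  rw [e0] at hh
  simp only [dl_gam hz, e4_gam hz, e2_gam hz, hh, XN4_period] at hr
  simp only [e0]
  have hW : ((N : ℂ) * (τ + (M : ℂ)) + 1) ^ (12 * W) ≠ 0 := pow_ne_zero _ hz1
  apply mul_left_cancel₀ hW
  rw [mul_zero, ← hr, Finset.mul_sum]
  refine Finset.sum_congr rfl fun s hsS => ?_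
  have hle := hS s hsS
  generalize (A.zP N k t).eval ((N : ℂ) * (τ + (M : ℂ)) + 1)⁻¹ + kapT N (Fintype.card ι) k *
    ((N : ℂ) * (τ + (M : ℂ)) + 1)⁻¹ ^ (k - 2) *
      A.zY N k ((N : ℂ) * (τ + (M : ℂ)) + 1) ((N : ℂ) * (τ + (M : ℂ)) + 1)⁻¹ = A1
  generalize (ev (ktoC (toQ e2)) τ + 12 / (2 * Real.pi * Complex.I) * N *
    ((N : ℂ) * (τ + (M : ℂ)) + 1)⁻¹) = A2
  generalize ev (ktoC (toQ dl)) τ = A3
  generalize ev (ktoC (toQ e4)) τ = A4
  generalize (N : ℂ) * (τ + (M : ℂ)) + 1 = u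
  rw [mul_pow, mul_pow, mul_pow, mul_pow, mul_pow, ← pow_mul, ← pow_mul, ← pow_mul, ← pow_mul,
    ← pow_mul]
  have e : 12 * W = 12 * s.2.2 + 4 * (3 * (W - s.1 - v * s.2.1 - s.2.2)) + 2 * (6 * s.1) +
      v * 2 * (6 * s.2.1) := by
    generalize hq : v * s.2.1 = q at *
    have : v * 2 * (6 * s.2.1) = 12 * q := by rw [← hq]; ring
    rw [this]
    omega
  rw [e, pow_add, pow_add, pow_add]
  ring

open scoped Classical in
/-- **Theorem X.** -/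
theorem KArr.not_relT {N k v : ℕ} (hN : 0 < N) (hk : 2 ≤ k) (A : KArr ι Λ)
    (hd : 2 ≤ Fintype.card ι) (hw : v + 6 = Fintype.card ι * k + 4 * Fintype.card ι)
    (hT : DTransI1 N k A.G) (hf : A.XFam k)
    (hne : ∀ᶠ y : ℝ in atTop, ∃ φ : ℝ, Irrational φ ∧
      (∑' p : ι × Λ, if ∃ m : ℤ, -(A.nu p.2 p.1) - φ = m then
        A.zb N k (1 + N * (Complex.I * (y : ℂ))) p else 0) ≠ 0) :
    ¬ Rel v (A.ht ^ 2) := by
  refine A.not_rel_of_clustersT hN hk hd hw hT hf ?_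
  filter_upwards [hne, eventually_gt_atTop (0 : ℝ)] with y ⟨φ, hφ, hy⟩ hy0
  have ht : 0 < (1 + (N : ℂ) * (Complex.I * (y : ℂ))).im := XNFin_im hN hy0
  refine cluster_inf (A.zb N k (1 + N * (Complex.I * (y : ℂ)))) (A.zb_summable hN hd hf ht)
    (fun p => -(A.nu p.2 p.1)) φ hφ hy _ ?_
  refine (A.zY_diff hN hd hf ht).congr fun M => ?_
  rw [A.zY_zero hN hd hf ht M]


end H36H
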