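import Pool.Agent.Lib.H36T.N3
import Pool.Agent.Lib.H36T.X12
import Pool.Agent.Lib.H36T.U2
import Pool.Agent.Lib.H36T.W6

set_option autoImplicit false

/-!
# H36T: the main theorem for rational integral coefficients
-/

open NumberField

namespace H36H

open H53M Filter

variable {F : Type*} [Field F] [NumberField F] [IsTotallyReal F]

open scoped Classical in
/-- **The main theorem** for rational integral coefficients. -/
theorem stHT (hd : 1 < Module.finrank ℚ F) : StHT F := by
  intro k hk N hN c hc1 hcu h η hη hE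
  obtain ⟨K, hE⟩ := hE
  have hcard : Fintype.card (F →+* ℝ) = Module.finrank ℚ F := in_card F
  have : NeZero N := ⟨hN.ne'⟩
  obtain ⟨v, hv⟩ : ∃ v : ℕ, v = Fintype.card (F →+* ℝ) * k + 4 * Fintype.card (F →+* ℝ) - 6 :=
    ⟨_, rfl⟩
  have hv1 : v + 6 = Fintype.card (F →+* ℝ) * k + 4 * Fintype.card (F →+* ℝ) := by
    omega
  have hrel : Rel v ((karr1 h).ht ^ 2) :=
    relHT hd k N (by omega) (karr1 h) (fun ξ φ => rfl) (karr_trans1 h) v (by
      rw [← hcard]
      exact hv1) η K hη hE
  exact KArr.not_relT hN (by omega) (karr1 h) (by rw [hcard]; exact hd) hv1 (karr_trans1 h)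
    (karr_XFam1 hk h) (karr_hneT hd hN h hc1 hcu) hrel

end H36H
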