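import Pool.Agent.Lib.H36T.Fin

set_option autoImplicit false

/-!
# H36T: the final theorem
-/

open NumberField

namespace H36H

/-- **Theorem T'.** -/
theorem ordinary_degOne (F : Type*) [Field F] [NumberField F] [IsTotallyReal F]
    (hF : 2 ≤ Module.finrank ℚ F) (k : ℕ) (hk : 4 ≤ k) (𝔫 : Ideal (𝓞 F)) (h𝔫 : 𝔫 ≠ ⊥)
    (E : Type*) [Field E] [NumberField E] (χ C : Ideal (𝓞 F) → 𝓞 E) (hC : IsHecke k 𝔫 χ C)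
    (hχ : ∀ P : Ideal (𝓞 F), P.IsPrime → P ≠ ⊥ → ¬ P ∣ 𝔫 → IsUnit (χ P))
    (hf : ∀ σ : E →+* ℂ, IsHilbertCusp1 k 𝔫 (fun ξ => σ (C (Ideal.span {ξ}) : E))) :
    {P : Ideal (𝓞 F) | P.IsPrime ∧ ¬ P ∣ 𝔫 ∧ ∃ (p : ℕ) (_ : Fact p.Prime), Ideal.absNorm P = p ∧
      ∃ τ : E →+* PadicAlgCl p, IsOrdAt k χ C p P τ}.Infinite ∧
    (∀ η : ℝ, η < 1 / (Module.finrank ℚ F : ℝ) →
      ¬ ∃ K : ℝ, ∀ X : ℕ, (Set.ncard {p : ℕ | p ≤ X ∧ ∃ (_ : Fact p.Prime) (P : Ideal (𝓞 F)),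
        P.IsPrime ∧ Ideal.absNorm P = p ∧ ¬ P ∣ 𝔫 ∧ ∃ τ : E →+* PadicAlgCl p, IsOrdAt k χ C p P τ} : ℝ) ≤
          K * (X : ℝ) ^ η) ∧
    ∀ (P : Ideal (𝓞 F)) (p : ℕ) [Fact p.Prime], P.IsPrime → (p : 𝓞 F) ∈ P → ¬ P ∣ 𝔫 →
      (∃ τ : E →+* PadicAlgCl p, IsOrdAt k χ C p P τ) →
      (∃ r : ℚ, (C P : E) ^ 2 = (r : E) * (χ P : E)) →
      ∀ τ : E →+* PadicAlgCl p, IsOrdAt k χ C p P τ := by
  have h := hilbert_inf_ofT (stHT hF) k hk 𝔫 h𝔫 E χ C hC hχ fun σ => (hf σ).diag h𝔫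
  refine ⟨h.1, h.2, fun P p hp hP hpP hPn ho hr τ => ?_⟩
  have hP0 : P ≠ ⊥ := by
    rintro rfl
    rw [Ideal.mem_bot] at hpP
    exact hp.out.ne_zero (by exact_mod_cast hpP)
  exact isOrdAt_all (by omega) hP hP0 hpP (hχ P hP hP0 hPn) hr ho τ

end H36H
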