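import Pool.Agent.Lib.H36T.D0

set_option autoImplicit false

/-!
# H36T, chunk K1 (S): the coefficients `kc` for the exponent `p + 1`

`kc k a i = a.choose i * (k + a - 1).descFactorial i`. `i = 1`: `(p + 1) (k + p) ≡ k`. `2 ≤ i < p`:
`(p+1).choose i = p.choose (i-1) + p.choose i` (`Nat.succ_sub_one`, `Nat.choose_succ_succ`), both divisible by `p`
(`Nat.Prime.dvd_choose_self`). `i ≥ p`: `(k + p).descFactorial i` is divisible by `i!` (`Nat.factorial_dvd_descFactorial`),
and `p ∣ i!`. See `kf_kc_p` (Lib/H36H/KF.lean).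
`at3_sum`: as `av_sum` (`sum_update_sub` with `a = fun _ => p + 1`, `i = 3`: `p - 2 = p + 1 - 3`).
-/

namespace H36H

open H53M H94M Function PowerSeries

variable {ι : Type*} [Fintype ι] [DecidableEq ι]

theorem kt_kc_one (k p : ℕ) [Fact p.Prime] :
    ((kc k (p + 1) 1 : ℕ) : ZMod p) = (k : ZMod p) := by
  unfold kc
  have e : k + (p + 1) - 1 = k + p := by omega
  rw [e, Nat.choose_one_right, Nat.descFactorial_one]
  push_cast
  rw [CharP.cast_eq_zero (ZMod p) p]
  ring

theorem kt_kc_zero (k : ℕ) (p : ℕ) [Fact p.Prime] (i : ℕ) (h1 : 2 ≤ i) (hi : i ≤ p + 1) :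
    ((kc k (p + 1) i : ℕ) : ZMod p) = 0 := by
  have hp : p.Prime := Fact.out
  rw [ZMod.natCast_eq_zero_iff]
  unfold kc
  rcases Nat.lt_or_ge i p with h | h
  · obtain ⟨j, rfl⟩ : ∃ j, i = j + 1 := ⟨i - 1, by omega⟩
    rw [Nat.choose_succ_succ]
    refine Dvd.dvd.mul_right (dvd_add ?_ ?_) _
    · exact hp.dvd_choose_self (by omega) (by omega)
    · exact hp.dvd_choose_self (by omega) h
  · apply Dvd.dvd.mul_left
    exact (Nat.dvd_factorial hp.pos h).trans (Nat.factorial_dvd_descFactorial _ _)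

omit [Fintype ι] in
theorem at3_self (p : ℕ) (j : ι) : at3 p j j = p - 2 := update_self j _ _

omit [Fintype ι] in
theorem at3_of_ne (p : ℕ) {j x : ι} (h : x ≠ j) : at3 p j x = p + 1 := by
  unfold at3
  rw [update_of_ne h]

theorem at3_sum (p : ℕ) (hp : 2 ≤ p) (j : ι) :
    ∑ i, at3 p j i + 3 = Fintype.card ι * (p + 1) := by
  have h := sum_update_sub (fun _ : ι => p + 1) j 3 (by omega)
  have e : p + 1 - 3 = p - 2 := by omega
  rw [Finset.sum_const, Finset.card_univ, smul_eq_mul] at h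
  simp only [e] at h
  exact h

end H36H
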