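import Pool.Agent.Lib.H36T.K1
import Pool.Agent.Lib.H53N.K

set_option autoImplicit false

/-!
# H36T, chunk K2 (M): the lowering operators in the variables with exponent `p + 1`

Induction on the list `l`, `a` general. `nil`: `lowL_nil`, `ht a`. `cons j l`: `lowL_cons`, `lowV_eq`, `a j = p + 1`: the sum
over `i < p + 2`; the terms with `i ≥ 2` vanish (`kt_kc_zero`, `kf_cast`), so split off `i = 0` and `i = 1`
(`Finset.sum_eq_sum_diff...`, or `Submodule.sum_mem` and cases on `i`: the following is convenient: `Submodule.sum_mem`,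
`rcases i = 0 | i = 1 | 2 ≤ i`).
`i = 0`: `kc_zero`, `update a j (p+1) = a` (`update_eq_self`): `ih a` has weight `w0 + 2Σa + l.length (p-1)`; multiply by
`1 ∈ MN1 N p (p - 1)` (`MP_le_MN1 N p _ (KQ_one p (by omega))`, `MN1_mul`).
`i = 1`: `e₂ * (lowL ..) (update a j p)`: `ih (update a j p)`, `Σ update a j p + 1 = Σ a` (`sum_update_sub a j 1`,
`p = p + 1 - 1`); `redQ p e2q ∈ MN1 N p (p + 1)` (`MP_le_MN1 N p _ (K7_e2q p hp)`): weight
`(p + 1) + (w0 + 2(Σa - 1) + l.length (p-1)) = w0 + 2Σa + (l.length + 1)(p-1)`. A constant `(m : PowerSeries (ZMod p))`: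
`PowerSeries.smul_eq_C_mul`, `map_natCast`, `Submodule.smul_mem` as at the end of `KArr.Tq_MN1` (Lib/H53N/K.lean).
-/

namespace H36H

open H53M H94M H53N Function PowerSeries

variable {ι : Type*} [Fintype ι] [DecidableEq ι]

theorem kt_low_mem {N : ℕ} [NeZero N] (p : ℕ) [Fact p.Prime] (hp : 5 < p) (k w0 : ℕ)
    (t : (ι → ℕ) → PowerSeries (ZMod p)) (ht : ∀ a, t a ∈ MN1 N p (w0 + 2 * ∑ i, a i))
    (l : List ι) (hl : l.Nodup) (a : ι → ℕ) (ha : ∀ i ∈ l, a i = p + 1) :
    lowL k (fun _ => redQ p e2q) l t a ∈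
      MN1 N p (w0 + 2 * ∑ i, a i + l.length * (p - 1)) := by
  induction l generalizing a with
  | nil =>
    rw [lowL_nil]
    have h := ht a
    simpa using h
  | cons j l ih =>
    rw [List.nodup_cons] at hl
    have hj : a j = p + 1 := ha j List.mem_cons_self
    rw [lowL_cons, lowV_eq, hj]
    refine Submodule.sum_mem _ fun i hi => ?_
    rw [Finset.mem_range] at hi
    have hupd : ∀ b, ∀ x ∈ l, update a j b x = p + 1 := fun b x hx => by
      have hxj : x ≠ j := fun e => hl.1 (e ▸ hx)
      rw [update_of_ne hxj]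
      exact ha x (List.mem_cons_of_mem _ hx)
    rcases (by omega : i = 0 ∨ i = 1 ∨ 2 ≤ i) with rfl | rfl | h2
    · have e : update a j (p + 1 - 0) = a := by
        rw [Nat.sub_zero, ← hj]
        exact update_eq_self j a
      rw [e, kc_zero, pow_zero]
      have h := MN1_mul (ih hl.2 a fun x hx => ha x (List.mem_cons_of_mem _ hx))
        (MP_le_MN1 N p _ (KQ_one p (by omega)))
      have hw : w0 + 2 * ∑ i, a i + l.length * (p - 1) + (p - 1) =
          w0 + 2 * ∑ i, a i + (j :: l).length * (p - 1) := by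
        rw [List.length_cons]
        ring
      rw [hw, mul_one] at h
      simpa using h
    · have hs := sum_update_sub a j 1 (by omega)
      rw [hj] at hs
      have h1 := ih hl.2 (update a j (p + 1 - 1)) (hupd _)
      have h2 := MN1_mul (MP_le_MN1 N p _ (K7_e2q p hp)) h1
      have hw : (p + 1) + (w0 + 2 * ∑ x, update a j (p + 1 - 1) x + l.length * (p - 1)) =
          w0 + 2 * ∑ i, a i + (j :: l).length * (p - 1) := by
        rw [List.length_cons, ← hs, add_mul, one_mul]
        omega
      rw [hw] at h2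
      have h5 : ((kc k (p + 1) 1 : ℕ) : PowerSeries (ZMod p)) * redQ p e2q ^ 1 *
          lowL k (fun _ => redQ p e2q) l t (update a j (p + 1 - 1)) =
          ((kc k (p + 1) 1 : ℕ) : ZMod p) •
            (redQ p e2q * lowL k (fun _ => redQ p e2q) l t (update a j (p + 1 - 1))) := by
        rw [PowerSeries.smul_eq_C_mul, map_natCast, pow_one, mul_assoc]
      rw [h5]
      exact Submodule.smul_mem _ _ h2
    · rw [kf_cast (kt_kc_zero k p i h2 (by omega))]
      simp

end H36H
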