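import Pool.Agent.Lib.H36T.K2

set_option autoImplicit false

/-!
# H36T, chunk K3 (M): the symmetrised series with the exponents `(p + 1, .., p - 2, .., p + 1)`

As `KArr.Tq_MN1` (Lib/H53N/K.lean): `A.Tq_inv`, `kredQ_lowL`, `lowL_perm` with `j :: (univ.erase j).toList`, `lowL_cons`,
`lowV_eq`, `at3_self`; the terms with `i ≥ k - 2` vanish (`K7_kc`); for `i ≤ k - 3` apply `kt_low_mem` to
`l = (univ.erase j).toList` (length `d - 1`: `Finset.length_toList`, `Finset.card_erase_of_mem`), `w0 = d k`,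
`t a = redQ p (A.Mq k a)` (`A.Mq_MN1`), `a = update (at3 p j) j (p - 2 - i)` (`at3_of_ne`), multiply by `(e₂)^i` (weight
`i (p + 1)`) and by `1^(k-3-i)` (weight `(k - 3 - i)(p - 1)`). The weights:
`i (p+1) + (d k + 2 (Σ at3 - i) + (d-1)(p-1)) + (k-3-i)(p-1) = d k + 4 d - 6 + (p-1)(3 d + k - 4)`, `Σ at3 + 3 = d (p+1)`.
-/

namespace H36H

open H53M H94M H53N Function PowerSeries

variable {ι Λ : Type*} [Fintype ι] [DecidableEq ι] {N k : ℕ}

theorem KArr.Tq_MN1T [NeZero N] (hk : 3 ≤ k) (A : KArr ι Λ) (hT : DTransI1 N k A.G) (p : ℕ)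
    [Fact p.Prime] (hp : 5 < p) (hd : 2 ≤ Fintype.card ι) (j : ι) :
    redQ p (A.Tq (at3 p j)) ∈ MN1 N p
      (Fintype.card ι * k + 4 * Fintype.card ι - 6 + (p - 1) * (3 * Fintype.card ι + k - 4)) := by
  obtain ⟨d, hdd⟩ : ∃ d, d = Fintype.card ι := ⟨_, rfl⟩
  rw [A.Tq_inv (by omega : 1 ≤ k)]
  unfold lowA
  rw [kredQ_lowL k (K6_e2q p (by omega)) _ (A.Mq_PI k p (by omega))]
  have hperm : (Finset.univ : Finset ι).toList.Perm (j :: (Finset.univ.erase j).toList) := by
    have h := Finset.toList_insert (Finset.notMem_erase j (Finset.univ : Finset ι))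
    rwa [Finset.insert_erase (Finset.mem_univ j)] at h
  rw [lowL_perm k _ hperm, lowL_cons, lowV_eq, at3_self]
  refine Submodule.sum_mem _ fun i hi => ?_
  rw [Finset.mem_range] at hi
  rcases Nat.lt_or_ge i (k - 2) with hik | hik
  swap
  · rw [kf_cast (K7_kc k hk p hp i hik)]
    simp
  have hM := kt_low_mem (N := N) p hp k (Fintype.card ι * k) (fun a => redQ p (A.Mq k a))
    (fun a => A.Mq_MN1 (by omega : 1 ≤ k) hT p (by omega) a) (Finset.univ.erase j).toList
    (Finset.nodup_toList _) (update (at3 p j) j (p - 2 - i)) (fun x hx => by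
      have hxj : x ≠ j := by
        have := Finset.mem_toList.1 hx
        exact Finset.ne_of_mem_erase this
      rw [update_of_ne hxj, at3_of_ne p hxj])
  rw [Finset.length_toList, Finset.card_erase_of_mem (Finset.mem_univ j), Finset.card_univ] at hM
  have h3 := MN1_mul (MN1_pow (MP_le_MN1 N p _ (K7_e2q p hp)) i) hM
  have h4 := MN1_mul h3 (MN1_pow (MP_le_MN1 N p _ (KQ_one p (by omega))) (k - 3 - i))
  rw [one_pow, mul_one] at h4
  have hs1 : ∑ x, update (at3 p j) j (p - 2 - i) x + i + 3 = Fintype.card ι * (p + 1) := by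
    have h5 := sum_update_sub (at3 p j) j i (by rw [at3_self]; omega)
    rw [at3_self] at h5
    rw [h5]
    exact at3_sum p (by omega) j
  have hw : i * (p + 1) + (Fintype.card ι * k + 2 * ∑ x, update (at3 p j) j (p - 2 - i) x +
      (Fintype.card ι - 1) * (p - 1)) + (k - 3 - i) * (p - 1) =
      Fintype.card ι * k + 4 * Fintype.card ι - 6 + (p - 1) * (3 * Fintype.card ι + k - 4) := by
    obtain ⟨S, hS⟩ : ∃ S, S = ∑ x, update (at3 p j) j (p - 2 - i) x := ⟨_, rfl⟩
    rw [← hS] at hs1 ⊢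
    rw [← hdd] at hs1 hd ⊢
    obtain ⟨l, hl⟩ : ∃ l, k = l + i + 3 := ⟨k - 3 - i, by omega⟩
    obtain ⟨q, rfl⟩ : ∃ q, p = q + 1 := ⟨p - 1, by omega⟩
    obtain ⟨e, rfl⟩ : ∃ e, d = e + 2 := ⟨d - 2, by omega⟩
    subst hl
    have e1 : l + i + 3 - 3 - i = l := by omega
    have e2 : (e + 2) * (l + i + 3) + 4 * (e + 2) - 6 = (e + 2) * (l + i + 3) + 4 * e + 2 := by
      omega
    have e3 : 3 * (e + 2) + (l + i + 3) - 4 = 3 * e + 5 + l + i := by omega
    have e5 : e + 2 - 1 = e + 1 := by omega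
    rw [e1, e2, e3, e5, Nat.add_sub_cancel]
    have e4 : 2 * S + 2 * i + 6 = 2 * ((e + 2) * (q + 1 + 1)) := by omega
    nlinarith [e4]
  rw [hw] at h4
  have h5 : ((kc k (p - 2) i : ℕ) : PowerSeries (ZMod p)) * redQ p e2q ^ i *
        lowL k (fun _ => redQ p e2q) (Finset.univ.erase j).toList (fun a => redQ p (A.Mq k a))
          (update (at3 p j) j (p - 2 - i)) =
      ((kc k (p - 2) i : ℕ) : ZMod p) •
        (redQ p e2q ^ i * lowL k (fun _ => redQ p e2q) (Finset.univ.erase j).toList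
          (fun a => redQ p (A.Mq k a)) (update (at3 p j) j (p - 2 - i))) := by
    rw [PowerSeries.smul_eq_C_mul, map_natCast]
    ring
  rw [h5]
  exact Submodule.smul_mem _ _ h4

end H36H
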