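import Pool.Agent.Lib.H36T.K1

set_option autoImplicit false

/-!
# H36T, chunk K4 (S/M): the sum over the variables

COPY of `KArr.sy_av`, `KArr.sum_Tq` (Lib/H36H/KF.lean) with `at3`, `q3`, `gt`:
`Π_i ν_i^{at3(σ i)} = (Π ν)^(p+1) (ν_{σ⁻¹ j}³)⁻¹` and `(Π ν)^(p+1) = (Π ν)³ (Π ν)^(p-2)`.
-/

namespace H36H

open H53M H94M Function PowerSeries

variable {ι Λ : Type*} [Fintype ι] [DecidableEq ι]

theorem KArr.sy_at (A : KArr ι Λ) (ξ : Λ) (p : ℕ) (hp : 2 ≤ p) :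
    ∑ j, A.sy ξ (at3 p j) = (Fintype.card ι).factorial * (A.q3 ξ * A.nm ξ ^ (p - 2)) := by
  have key : ∀ (j : ι) (σ : Equiv.Perm ι), ∏ i, A.nu ξ i ^ at3 p j (σ i) =
      (∏ i, A.nu ξ i) ^ (p + 1) * (A.nu ξ (σ.symm j) ^ 3)⁻¹ := by
    intro j σ
    obtain ⟨q, rfl⟩ : ∃ q, p = q + 2 := ⟨p - 2, by omega⟩
    have hpos := A.nu_pos ξ (σ.symm j)
    rw [← Finset.mul_prod_erase _ (fun i => A.nu ξ i ^ at3 (q + 2) j (σ i))
      (Finset.mem_univ (σ.symm j)), ← Finset.mul_prod_erase _ (A.nu ξ)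
      (Finset.mem_univ (σ.symm j))]
    have e1 : at3 (q + 2) j (σ (σ.symm j)) = q := by
      rw [Equiv.apply_symm_apply, at3_self]
      omega
    have e2 : ∏ i ∈ Finset.univ.erase (σ.symm j), A.nu ξ i ^ at3 (q + 2) j (σ i) =
        (∏ i ∈ Finset.univ.erase (σ.symm j), A.nu ξ i) ^ (q + 2 + 1) := by
      rw [← Finset.prod_pow]
      refine Finset.prod_congr rfl fun i hi => ?_
      have hij : σ i ≠ j := fun h => Finset.ne_of_mem_erase hi (by rw [← h]; simp)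
      rw [at3_of_ne _ hij]
    have e3 : q + 2 + 1 = q + 3 := by ring
    rw [e1, e2, mul_pow, e3, pow_add (A.nu ξ (σ.symm j))]
    field_simp
  have h : (((∑ j, A.sy ξ (at3 p j) : ℤ)) : ℝ) =
      (((Fintype.card ι).factorial * (A.q3 ξ * A.nm ξ ^ (p - 2)) : ℤ) : ℝ) := by
    push_cast
    simp only [A.sy_eq, key]
    rw [Finset.sum_comm]
    have h2 : ∀ σ : Equiv.Perm ι, ∑ j, (∏ i, A.nu ξ i) ^ (p + 1) * (A.nu ξ (σ.symm j) ^ 3)⁻¹ =
        (A.q3 ξ : ℝ) * (A.nm ξ : ℝ) ^ (p - 2) := by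
      intro σ
      rw [← Finset.mul_sum, Equiv.sum_comp σ.symm (fun j => (A.nu ξ j ^ 3)⁻¹), A.q3_eq, A.nm_eq]
      have e : (∏ i, A.nu ξ i) ^ (p + 1) = (∏ i, A.nu ξ i) ^ 3 * (∏ i, A.nu ξ i) ^ (p - 2) := by
        rw [← pow_add]
        congr 1
        omega
      rw [e]
      ring
    rw [Finset.sum_congr rfl fun σ _ => h2 σ, Finset.sum_const, Finset.card_univ,
      Fintype.card_perm, nsmul_eq_mul]
  exact_mod_cast h

theorem KArr.sum_TqT (A : KArr ι Λ) (p : ℕ) (hp : 2 ≤ p) :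
    ∑ j, A.Tq (at3 p j) = (((Fintype.card ι).factorial : ℤ) : ℚ) • toQ (A.gt p) := by
  ext n
  rw [map_sum]
  unfold KArr.Tq KArr.gt
  rw [coeff_smul, smul_eq_mul]
  simp only [coeff_mk, PowerSeries.coeff_map]
  rw [Finset.sum_comm, map_sum, Finset.mul_sum]
  refine Finset.sum_congr rfl fun ξ _ => ?_
  rw [← Finset.mul_sum]
  have h := congrArg (fun x : ℤ => (x : ℚ)) (A.sy_at ξ p hp)
  push_cast at h
  rw [h]
  simp only [eq_intCast]
  push_cast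
  ring

end H36H
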