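import Pool.Agent.Lib.H36T.D0

set_option autoImplicit false

/-!
# H36T, chunk K5 (S/M): the reduction of `ht`

COPY of `KArr.hs_term_pi`, `KArr.hs_PI`, `KArr.hs_red` (Lib/H36H/KF.lean) with `q3`, `ht`, `gt`.
-/

namespace H36H

open H53M H94M Function PowerSeries

variable {ι Λ : Type*} [Fintype ι]

theorem k5_nm_pos (A : KArr ι Λ) (ξ : Λ) : 0 < A.nm ξ := by
  have h : (0 : ℝ) < A.nm ξ := by
    rw [A.nm_eq]
    exact Finset.prod_pos fun i _ => A.nu_pos ξ i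
  exact_mod_cast h

theorem k5_den {p : ℕ} [Fact p.Prime] {x : ℚ} (h : (p : ℤ) ∣ x.num) : ¬ p ∣ x.den := by
  intro h2
  have h3 : p ∣ x.num.natAbs := Int.natCast_dvd.1 h
  have h4 : p ∣ Nat.gcd x.num.natAbs x.den := Nat.dvd_gcd h3 h2
  rw [x.reduced] at h4
  exact (Fact.out : p.Prime).one_lt.ne' (Nat.dvd_one.1 h4)

theorem KArr.ht_term_pi (A : KArr ι Λ) (p : ℕ) [Fact p.Prime]
    (hd : ∀ ξ, (p : ℤ) ∣ A.nm ξ → (p : ℤ) ∣ ((A.c ξ * A.q3 ξ : ℚ) / A.nm ξ).num) (ξ : Λ) :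
    ¬ p ∣ ((A.c ξ * A.q3 ξ : ℚ) / A.nm ξ).den := by
  by_cases h : (p : ℤ) ∣ A.nm ξ
  · exact k5_den (hd ξ h)
  · intro h2
    apply h
    have h3 : (((A.c ξ * A.q3 ξ : ℚ) / A.nm ξ).den : ℤ) ∣ A.nm ξ := by
      have h4 := Rat.den_dvd (A.c ξ * A.q3 ξ) (A.nm ξ)
      rw [Rat.divInt_eq_div] at h4
      push_cast at h4
      exact h4
    exact (Int.natCast_dvd_natCast.2 h2).trans h3

theorem KArr.ht_red (A : KArr ι Λ) (p : ℕ) [Fact p.Prime] (hp : 2 < p)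
    (hd : ∀ ξ, (p : ℤ) ∣ A.nm ξ → (p : ℤ) ∣ ((A.c ξ * A.q3 ξ : ℚ) / A.nm ξ).num) :
    redQ p A.ht = redZ p (A.gt p) := by
  have hP : p.Prime := Fact.out
  ext n
  have hL : coeff n (redQ p A.ht) =
      ∑ ξ ∈ A.fib n, (((A.c ξ * A.q3 ξ : ℚ) / A.nm ξ : ℚ) : ZMod p) := by
    unfold redQ KArr.ht
    rw [coeff_mk, coeff_mk, cast_sum_pi _ _ fun ξ _ => A.ht_term_pi p hd ξ]
  have hR : coeff n (redZ p (A.gt p)) =
      ∑ ξ ∈ A.fib n, ((A.c ξ * (A.q3 ξ * A.nm ξ ^ (p - 2)) : ℤ) : ZMod p) := by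
    unfold redZ KArr.gt
    rw [coeff_map, coeff_mk, map_sum]
    rfl
  rw [hL, hR]
  refine Finset.sum_congr rfl fun ξ _ => ?_
  have h0 : (A.nm ξ : ℚ) ≠ 0 := by exact_mod_cast (k5_nm_pos A ξ).ne'
  by_cases h : (p : ℤ) ∣ A.nm ξ
  · have h1 : ((((A.c ξ * A.q3 ξ : ℚ) / A.nm ξ).num : ℤ) : ZMod p) = 0 :=
      (ZMod.intCast_zmod_eq_zero_iff_dvd _ p).2 (hd ξ h)
    have h2 : ((A.nm ξ : ℤ) : ZMod p) = 0 := (ZMod.intCast_zmod_eq_zero_iff_dvd _ p).2 h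
    rw [Rat.cast_def, h1, zero_div]
    push_cast
    rw [h2, zero_pow (by omega : p - 2 ≠ 0)]
    ring
  · have h2 : ((A.nm ξ : ℤ) : ZMod p) ≠ 0 := fun h3 =>
      h ((ZMod.intCast_zmod_eq_zero_iff_dvd _ p).1 h3)
    have h1 : (((A.c ξ * A.q3 ξ : ℚ) / A.nm ξ : ℚ) : ZMod p) * ((A.nm ξ : ℤ) : ZMod p) =
        ((A.c ξ * A.q3 ξ : ℤ) : ZMod p) := by
      have h3 := cast_mul_pi (A.ht_term_pi p hd ξ) (pi_int (p := p) (A.nm ξ))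
      rw [div_mul_cancel₀ _ h0] at h3
      rw [Rat.cast_intCast] at h3
      rw [← h3]
      have h4 : ((A.c ξ : ℚ) * (A.q3 ξ : ℚ)) = ((A.c ξ * A.q3 ξ : ℤ) : ℚ) := by push_cast; rfl
      rw [h4, Rat.cast_intCast]
    have h3 : ((A.nm ξ : ℤ) : ZMod p) ^ (p - 1) = 1 := ZMod.pow_card_sub_one_eq_one h2
    have h4 : ((A.nm ξ : ℤ) : ZMod p) ^ (p - 1) =
        ((A.nm ξ : ℤ) : ZMod p) * ((A.nm ξ : ℤ) : ZMod p) ^ (p - 2) := by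
      rw [← pow_succ']
      congr 1
      omega
    have h5 : (((A.c ξ * A.q3 ξ : ℚ) / A.nm ξ : ℚ) : ZMod p) =
        ((A.c ξ * A.q3 ξ : ℤ) : ZMod p) * ((A.nm ξ : ℤ) : ZMod p) ^ (p - 2) := by
      rw [← h1, mul_assoc, ← h4, h3, mul_one]
    rw [h5]
    push_cast
    ring

end H36H
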