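import Pool.Agent.Lib.H36T.K3
import Pool.Agent.Lib.H36T.K4
import Pool.Agent.Lib.H36T.K5

set_option autoImplicit false

/-!
# H36T, chunk K6 (S): `ht` modulo `p`

COPY of `KArr.gp_MN1`, `KArr.hs_MN1` (end of Lib/H53N/K.lean) with `sum_TqT`, `Tq_MN1T`, `ht_red`.
-/

namespace H36H

open H53M H94M H53N Function PowerSeries

variable {ι Λ : Type*} [Fintype ι] [DecidableEq ι] {N k : ℕ}

theorem KArr.gt_MN1 [NeZero N] (hk : 3 ≤ k) (A : KArr ι Λ) (hT : DTransI1 N k A.G) (p : ℕ)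
    [Fact p.Prime] (hp : 5 < p) (h2 : 2 ≤ Fintype.card ι) (hd : Fintype.card ι < p) :
    redZ p (A.gt p) ∈ MN1 N p
      (Fintype.card ι * k + 4 * Fintype.card ι - 6 + (p - 1) * (3 * Fintype.card ι + k - 4)) := by
  have hpp : p.Prime := Fact.out
  have h1 := congrArg (redQ p) (A.sum_TqT p (by omega))
  rw [kredQ_sum _ _ (fun j _ => A.Tq_PI p _), kredQ_smul (pi_int _) (PI_toQ _), kredQ_toQ] at h1
  have h3 := Submodule.sum_mem _ fun j (_ : j ∈ (Finset.univ : Finset ι)) =>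
    A.Tq_MN1T hk hT p hp h2 j
  rw [h1] at h3
  have h4 : (((((Fintype.card ι).factorial : ℤ) : ℚ)) : ZMod p) ≠ 0 := by
    rw [Rat.cast_intCast, Int.cast_natCast, Ne, ZMod.natCast_eq_zero_iff, hpp.dvd_factorial]
    omega
  have h5 := Submodule.smul_mem _ (((((Fintype.card ι).factorial : ℤ) : ℚ)) : ZMod p)⁻¹ h3
  rwa [smul_smul, inv_mul_cancel₀ h4, one_smul] at h5

theorem KArr.ht_MN1 [NeZero N] (hk : 3 ≤ k) (A : KArr ι Λ) (hT : DTransI1 N k A.G) (p : ℕ)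
    [Fact p.Prime] (hp : 5 < p) (h2 : 2 ≤ Fintype.card ι) (hc : Fintype.card ι < p)
    (hd : ∀ ξ, (p : ℤ) ∣ A.nm ξ → (p : ℤ) ∣ ((A.c ξ * A.q3 ξ : ℚ) / A.nm ξ).num) :
    redQ p A.ht ∈ MN1 N p
      (Fintype.card ι * k + 4 * Fintype.card ι - 6 + (p - 1) * (3 * Fintype.card ι + k - 4)) := by
  rw [A.ht_red p (by omega) hd]
  exact A.gt_MN1 hk hT p hp h2 hc

end H36H
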