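import Pool.Agent.Lib.H36T.W4
import Pool.Agent.Lib.H36H.NB

set_option autoImplicit false

/-!
# H36T, chunk N1 (M): the valuation of a term

As `nb_key` (Lib/H36H/NB.lean). Put `ω = omegaP p (ξ)`, `δ = omegaD p (ξ) ≤ ω` (`omegaD_le`). `omega_compl`: `m`, `p ∤ m`,
`m p^ω = ξ y`, `T = Tr(y³)`; for every `φ`: `m p^ω = ν_φ φ(y)`, so `q3 (m p^ω)³ = N³ T` (`A.q3_eq`, `A.nm_eq`, `na_trace`).
`c = p^δ c'`, and `p^(2ω) ∣ N p^δ` (`omegaD_norm`, `nb_nm`, `absNorm_span_singleton`) gives `N = p^(2ω-δ) u` (`δ ≤ ω ≤ 2ω`: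
cancel `p^δ`). Hence `c q3/N m³ = c N² T / p^(3ω) = p^(δ + 2(2ω-δ) - 3ω) c' u² T = p^(ω-δ) c' u² T`: `z = p^(ω-δ) c' u² T`.
To avoid division: multiply by `p^(3ω) N ≠ 0`.
-/

open NumberField PowerSeries H53M H94M

namespace H36H

variable {F : Type*} [Field F] [NumberField F] [IsTotallyReal F]

theorem nt_key (A : KArr (F →+* ℝ) (TotPos F)) (hnu : ∀ ξ φ, A.nu ξ φ = φ ξ.1) (ξ : TotPos F)
    {p : ℕ} (hp : p.Prime) (hc : (p : ℤ) ^ omegaD p (Ideal.span {ξ.1}) ∣ A.c ξ) :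
    ∃ (m : ℕ) (z : ℤ), ¬ p ∣ m ∧ ((A.c ξ * A.q3 ξ : ℚ) / A.nm ξ) * (m : ℚ) ^ 3 = z ∧
      (p : ℤ) ^ (omegaP p (Ideal.span {ξ.1}) - omegaD p (Ideal.span {ξ.1})) ∣ z := by
  obtain ⟨ω, hω⟩ : ∃ ω, ω = omegaP p (Ideal.span {ξ.1}) := ⟨_, rfl⟩
  obtain ⟨δ, hδ⟩ : ∃ δ, δ = omegaD p (Ideal.span {ξ.1}) := ⟨_, rfl⟩
  have hI0 : (Ideal.span {ξ.1} : Ideal (𝓞 F)) ≠ 0 := by
    rw [Ne, Ideal.zero_eq_bot, Ideal.span_singleton_eq_bot]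
    exact nb_ne ξ
  have hle := omegaD_le p _ hI0
  have hN := omegaD_norm hp _ hI0
  obtain ⟨m, hm, hmem⟩ := omega_compl hp _ hI0
  rw [← hω] at hN hmem hle ⊢
  rw [← hδ] at hc hN hle ⊢
  obtain ⟨e, he⟩ := Nat.exists_eq_add_of_le hle
  obtain ⟨y, hy⟩ := Ideal.mem_span_singleton.1 hmem
  obtain ⟨c', hc'⟩ := hc
  rw [Ideal.absNorm_span_singleton, ← nb_nm A hnu ξ] at hN
  have hnmpos := A.nm_pos ξ
  have hp0 : (p : ℚ) ≠ 0 := by exact_mod_cast hp.ne_zero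
  have hpz : (p : ℤ) ≠ 0 := by exact_mod_cast hp.ne_zero
  have hN' : (p : ℤ) ^ (δ + 2 * e) ∣ A.nm ξ := by
    have h1 := Int.natCast_dvd_natCast.2 hN
    push_cast at h1
    rw [abs_of_pos hnmpos, he] at h1
    have h2 : (p : ℤ) ^ (2 * (δ + e)) = (p : ℤ) ^ (δ + 2 * e) * (p : ℤ) ^ δ := by
      rw [← pow_add]
      congr 1
      ring
    rw [h2] at h1
    exact (mul_dvd_mul_iff_right (pow_ne_zero δ hpz)).1 h1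
  obtain ⟨u, hu⟩ := hN'
  obtain ⟨T, hT⟩ : ∃ T : ℤ, T = Algebra.trace ℤ (𝓞 F) (y ^ 3) := ⟨_, rfl⟩
  have hTr : (A.q3 ξ : ℝ) * ((m : ℝ) * (p : ℝ) ^ ω) ^ 3 = (A.nm ξ : ℝ) ^ 3 * T := by
    have h1 : (T : ℝ) = ∑ φ : F →+* ℝ, φ (((y ^ 3 : 𝓞 F)) : F) := by
      rw [hT, na_trace]
    rw [h1, A.q3_eq, ← A.nm_eq, mul_assoc, Finset.sum_mul]
    congr 1
    refine Finset.sum_congr rfl fun φ _ => ?_
    have h2 : (m : ℝ) * (p : ℝ) ^ ω = A.nu ξ φ * φ (y : F) := by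
      rw [hnu]
      have h3 := congrArg (fun x : 𝓞 F => φ (x : F)) hy
      simp only [map_mul, map_natCast] at h3
      push_cast at h3
      exact h3
    have h4 := A.nu_pos ξ φ
    rw [h2, mul_pow]
    push_cast
    rw [map_pow]
    field_simp
  have hTq : (A.q3 ξ : ℚ) * ((m : ℚ) * (p : ℚ) ^ ω) ^ 3 = (A.nm ξ : ℚ) ^ 3 * T := by
    exact_mod_cast hTr
  have hnm0 : (A.nm ξ : ℚ) ≠ 0 := by exact_mod_cast hnmpos.ne'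
  have hsub : ω - δ = e := by omega
  rw [hsub]
  refine ⟨m, (p : ℤ) ^ e * (c' * u ^ 2 * T), hm, ?_, Dvd.intro _ rfl⟩
  have hcq : (A.c ξ : ℚ) = (p : ℚ) ^ δ * c' := by exact_mod_cast congrArg (fun x : ℤ => (x : ℚ)) hc'
  have huq : (A.nm ξ : ℚ) = (p : ℚ) ^ (δ + 2 * e) * u := by
    exact_mod_cast congrArg (fun x : ℤ => (x : ℚ)) hu
  have hpw : ((p : ℚ) ^ ω) ^ 3 ≠ 0 := pow_ne_zero _ (pow_ne_zero _ hp0)
  have h5 : ((A.c ξ * A.q3 ξ : ℚ) / A.nm ξ) * (m : ℚ) ^ 3 * (((p : ℚ) ^ ω) ^ 3 * A.nm ξ) =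
      ((p : ℚ) ^ e * (c' * u ^ 2 * T)) * (((p : ℚ) ^ ω) ^ 3 * A.nm ξ) := by
    calc ((A.c ξ * A.q3 ξ : ℚ) / A.nm ξ) * (m : ℚ) ^ 3 * (((p : ℚ) ^ ω) ^ 3 * A.nm ξ)
        = (A.c ξ : ℚ) * A.q3 ξ * (m : ℚ) ^ 3 * ((p : ℚ) ^ ω) ^ 3 := by
          field_simp
      _ = (A.c ξ : ℚ) * (A.q3 ξ * ((m : ℚ) * (p : ℚ) ^ ω) ^ 3) := by ring
      _ = (A.c ξ : ℚ) * (A.nm ξ * A.nm ξ * T) * A.nm ξ := by
          rw [hTq]
          ring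
      _ = ((p : ℚ) ^ δ * c') * (((p : ℚ) ^ (δ + 2 * e) * u) * ((p : ℚ) ^ (δ + 2 * e) * u) * T) *
          A.nm ξ := by
          rw [← hcq, ← huq]
      _ = ((p : ℚ) ^ e * (c' * u ^ 2 * T)) * (((p : ℚ) ^ ω) ^ 3 * A.nm ξ) := by
          rw [he]
          ring
  have h6 := mul_right_cancel₀ (mul_ne_zero hpw hnm0) h5
  rw [h6]
  push_cast
  ring

theorem nt_den_of {p : ℕ} (hp : p.Prime) {x : ℚ} {m : ℕ} (hm : ¬ p ∣ m) {z : ℤ}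
    (h : x * (m : ℚ) ^ 3 = z) : ¬ p ∣ x.den := by
  have hm0 : (m : ℚ) ≠ 0 := by
    intro h0
    have : m = 0 := by exact_mod_cast h0
    exact hm (by rw [this]; exact dvd_zero p)
  have hx : x = (z : ℚ) / ((m ^ 3 : ℕ) : ℤ) := by
    push_cast
    field_simp
    exact h
  intro h2
  have h3 : (x.den : ℤ) ∣ ((m ^ 3 : ℕ) : ℤ) := by
    have h4 := Rat.den_dvd z ((m ^ 3 : ℕ) : ℤ)
    rw [Rat.divInt_eq_div, ← hx] at h4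
    exact h4
  have h4 : p ∣ m ^ 3 := h2.trans (Int.natCast_dvd_natCast.1 h3)
  exact hm (hp.dvd_of_dvd_pow h4)

theorem nt_num_of {p : ℕ} (hp : p.Prime) {x : ℚ} {m : ℕ} (hm : ¬ p ∣ m) {z : ℤ}
    (h : x * (m : ℚ) ^ 3 = z) (hz : (p : ℤ) ∣ z) : (p : ℤ) ∣ x.num := by
  have hpi : Prime (p : ℤ) := Nat.prime_iff_prime_int.1 hp
  have h1 : ((x.num * (m : ℤ) ^ 3 : ℤ) : ℚ) = ((z * x.den : ℤ) : ℚ) := by
    push_cast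
    rw [← h]
    have h2 : (x.den : ℚ) * x = x.num := by
      rw [mul_comm]
      exact Rat.mul_den_eq_num x
    rw [← h2]
    ring
  have h2 : x.num * (m : ℤ) ^ 3 = z * x.den := by exact_mod_cast h1
  have h3 : (p : ℤ) ∣ x.num * (m : ℤ) ^ 3 := by
    rw [h2]
    exact hz.mul_right _
  rcases hpi.dvd_or_dvd h3 with h4 | h4
  · exact h4
  · exfalso
    exact hm (Int.natCast_dvd_natCast.1 (hpi.dvd_of_dvd_pow h4))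

end H36H
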