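import Pool.Agent.Lib.H36T.D0
import Pool.Agent.Lib.H36H.NB

set_option autoImplicit false

/-!
# H36T, chunk N2 (S/M): denominators and growth of `ht`

COPY of `nb_den`, `nb_term`, `nb_q2_nonneg`, `nb_growth` (Lib/H36H/NB.lean): `q3/nm = nm² Σ (ν³)⁻¹`
(`A.q3_eq`, `A.nm_eq`), `nm ≤ T^d`, `(ν⁻¹)³ ≤ T^(3d)`, so `q3/nm ≤ T^(2d) d T^(3d)`.
-/

open NumberField PowerSeries H53M H94M

namespace H36H

variable {ι Λ : Type*} [Fintype ι] (A : KArr ι Λ)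

theorem nt_den (n p : ℕ) (hp : p.Prime) :
    p ^ padicValNat p (coeff n A.ht).den ≤ 1 * (n + 1) ^ Fintype.card ι := by
  rw [one_mul]
  unfold KArr.ht
  rw [coeff_mk]
  refine nb_sum_den hp _ _ _ (Nat.one_le_pow _ _ (by omega)) fun ξ hξ => ?_
  have htr := (A.mem_fib n ξ).1 hξ
  have hnm := A.nm_pos ξ
  have h3 : (((A.c ξ * A.q3 ξ : ℚ) / A.nm ξ).den : ℤ) ∣ A.nm ξ := by
    have h4 := Rat.den_dvd (A.c ξ * A.q3 ξ) (A.nm ξ)
    rw [Rat.divInt_eq_div] at h4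
    push_cast at h4
    exact h4
  have h5 : ((p ^ padicValNat p ((A.c ξ * A.q3 ξ : ℚ) / A.nm ξ).den : ℕ) : ℤ) ∣ A.nm ξ :=
    (Int.natCast_dvd_natCast.2 pow_padicValNat_dvd).trans h3
  have h6 := Int.le_of_dvd hnm h5
  have h7 : A.nm ξ ≤ (((n + 1) ^ Fintype.card ι : ℕ) : ℤ) := by
    have h8 := nb_nm_le A ξ
    rw [htr] at h8
    have h9 : (A.nm ξ : ℝ) ≤ ((((n + 1) ^ Fintype.card ι : ℕ) : ℤ) : ℝ) := by
      push_cast
      exact h8
    exact_mod_cast h9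
  exact_mod_cast h6.trans h7

theorem nt_term (ξ : Λ) : (A.q3 ξ : ℝ) / A.nm ξ ≤
    Fintype.card ι * ((A.tr ξ : ℝ) + 1) ^ (5 * Fintype.card ι) := by
  obtain ⟨T, hT⟩ : ∃ T : ℝ, T = (A.tr ξ : ℝ) + 1 := ⟨_, rfl⟩
  have hT1 : 1 ≤ T := by
    rw [hT]
    have : (0 : ℝ) ≤ A.tr ξ := Nat.cast_nonneg _
    linarith
  have hnm : (1 : ℝ) ≤ A.nm ξ := by exact_mod_cast A.nm_pos ξ
  have hnm0 : (0 : ℝ) < A.nm ξ := by linarith
  have hle := nb_nm_le A ξ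
  rw [← hT] at hle
  have hinv : ∀ i, (A.nu ξ i)⁻¹ ≤ T ^ Fintype.card ι := by
    classical
    intro i
    have hi := A.nu_pos ξ i
    have h1 : (A.nm ξ : ℝ) = A.nu ξ i * ∏ j ∈ Finset.univ.erase i, A.nu ξ j := by
      rw [A.nm_eq, Finset.mul_prod_erase _ _ (Finset.mem_univ i)]
    have h2 : ∏ j ∈ Finset.univ.erase i, A.nu ξ j ≤ T ^ Fintype.card ι := by
      calc ∏ j ∈ Finset.univ.erase i, A.nu ξ j ≤ ∏ _j ∈ Finset.univ.erase i, T := by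
            refine Finset.prod_le_prod (fun j _ => (A.nu_pos ξ j).le) fun j _ => ?_
            have := A.nu_le ξ j
            linarith
        _ = T ^ (Finset.univ.erase i).card := Finset.prod_const _
        _ ≤ T ^ Fintype.card ι := by
            refine pow_le_pow_right₀ hT1 ?_
            rw [← Finset.card_univ]
            exact Finset.card_le_card (Finset.erase_subset _ _)
    rw [inv_le_iff_one_le_mul₀ hi]
    calc (1 : ℝ) ≤ A.nm ξ := hnm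
      _ = (∏ j ∈ Finset.univ.erase i, A.nu ξ j) * A.nu ξ i := by rw [h1, mul_comm]
      _ ≤ T ^ Fintype.card ι * A.nu ξ i := mul_le_mul_of_nonneg_right h2 hi.le
  have h3 : (A.q3 ξ : ℝ) / A.nm ξ = A.nm ξ ^ 2 * ∑ i, (A.nu ξ i ^ 3)⁻¹ := by
    rw [A.q3_eq, ← A.nm_eq]
    field_simp
  have h4 : ∑ i, (A.nu ξ i ^ 3)⁻¹ ≤ Fintype.card ι * T ^ (3 * Fintype.card ι) := by
    rw [← nsmul_eq_mul, ← Finset.card_univ]
    refine Finset.sum_le_card_nsmul _ _ _ fun i _ => ?_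
    rw [← inv_pow, Finset.card_univ, mul_comm 3, pow_mul]
    exact pow_le_pow_left₀ (inv_nonneg.2 (A.nu_pos ξ i).le) (hinv i) 3
  rw [h3, ← hT]
  calc (A.nm ξ : ℝ) ^ 2 * ∑ i, (A.nu ξ i ^ 3)⁻¹
      ≤ (T ^ Fintype.card ι) ^ 2 * (Fintype.card ι * T ^ (3 * Fintype.card ι)) :=
        mul_le_mul (pow_le_pow_left₀ hnm0.le hle 2) h4 (Finset.sum_nonneg fun i _ => by
          have := A.nu_pos ξ i
          positivity) (by positivity)
    _ = Fintype.card ι * T ^ (5 * Fintype.card ι) := by ring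

theorem nt_q3_nonneg (ξ : Λ) : (0 : ℝ) ≤ (A.q3 ξ : ℝ) / A.nm ξ := by
  have hnm0 : (0 : ℝ) < A.nm ξ := by exact_mod_cast A.nm_pos ξ
  refine div_nonneg ?_ hnm0.le
  rw [A.q3_eq]
  refine mul_nonneg (pow_nonneg (Finset.prod_nonneg fun i _ => (A.nu_pos ξ i).le) 3) (Finset.sum_nonneg fun i _ => ?_)
  have := A.nu_pos ξ i
  positivity

theorem nt_growth : ∃ (C : ℝ) (κ : ℕ), ∀ n : ℕ,
    |((coeff n A.ht : ℚ) : ℝ)| ≤ C * ((n : ℝ) + 1) ^ κ := by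
  obtain ⟨C1, K1, h1⟩ := A.card_le
  obtain ⟨C2, K2, h2⟩ := A.c_le
  refine ⟨|C1| * (|C2| * Fintype.card ι), K1 + (K2 + 5 * Fintype.card ι), fun n => ?_⟩
  have hn : (1 : ℝ) ≤ (n : ℝ) + 1 := by
    have : (0 : ℝ) ≤ n := Nat.cast_nonneg _
    linarith
  unfold KArr.ht
  rw [coeff_mk]
  push_cast
  have hterm : ∀ ξ ∈ A.fib n, |(A.c ξ : ℝ) * A.q3 ξ / A.nm ξ| ≤
      |C2| * Fintype.card ι * ((n : ℝ) + 1) ^ (K2 + 5 * Fintype.card ι) := by
    intro ξ hξ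
    have htr := (A.mem_fib n ξ).1 hξ
    have a1 := h2 ξ
    have a2 := nt_term A ξ
    have a3 := nt_q3_nonneg A ξ
    rw [htr] at a1 a2
    rw [mul_div_assoc, abs_mul, abs_of_nonneg a3]
    calc |(A.c ξ : ℝ)| * ((A.q3 ξ : ℝ) / A.nm ξ)
        ≤ (|C2| * ((n : ℝ) + 1) ^ K2) *
          (Fintype.card ι * ((n : ℝ) + 1) ^ (5 * Fintype.card ι)) := by
          refine mul_le_mul ?_ a2 a3 (by positivity)
          exact a1.trans (mul_le_mul_of_nonneg_right (le_abs_self _) (by positivity))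
      _ = |C2| * Fintype.card ι * ((n : ℝ) + 1) ^ (K2 + 5 * Fintype.card ι) := by
          rw [pow_add]
          ring
  calc |∑ ξ ∈ A.fib n, (A.c ξ : ℝ) * A.q3 ξ / A.nm ξ|
      ≤ ∑ ξ ∈ A.fib n, |(A.c ξ : ℝ) * A.q3 ξ / A.nm ξ| := Finset.abs_sum_le_sum_abs _ _
    _ ≤ (A.fib n).card • (|C2| * Fintype.card ι *
          ((n : ℝ) + 1) ^ (K2 + 5 * Fintype.card ι)) := Finset.sum_le_card_nsmul _ _ _ hterm
    _ = ((A.fib n).card : ℝ) * (|C2| * Fintype.card ι *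
          ((n : ℝ) + 1) ^ (K2 + 5 * Fintype.card ι)) := by rw [nsmul_eq_mul]
    _ ≤ (|C1| * ((n : ℝ) + 1) ^ K1) * (|C2| * Fintype.card ι *
          ((n : ℝ) + 1) ^ (K2 + 5 * Fintype.card ι)) := by
        refine mul_le_mul_of_nonneg_right ?_ (by positivity)
        exact (h1 n).trans (mul_le_mul_of_nonneg_right (le_abs_self _) (by positivity))
    _ = |C1| * (|C2| * Fintype.card ι) *
          ((n : ℝ) + 1) ^ (K1 + (K2 + 5 * Fintype.card ι)) := by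
        rw [pow_add _ K1]
        ring

end H36H
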