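import Pool.Agent.Lib.H36T.N1
import Pool.Agent.Lib.H36T.N2
import Pool.Agent.Lib.H36T.K6

set_option autoImplicit false

/-!
# H36T, chunk N3 (M): the relation

COPY of `relH1` (Lib/H53N/N.lean, 70 lines) with `ht`, `omegaD`, `nt_key`, `nt_den_of`, `nt_num_of`, `nt_den`, `nt_growth`,
`A.ht_MN1`, and `3 * d + k - 4` in place of `2 * d + k - 3`; `v + 6 = d k + 4 d`.
Integrality for `¬ E p`: `nt_key` and `nt_den_of`. For the primes with `degOne F p = 0` (`R`): `omegaD p I = 0`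
(`omegaD_zero`), so the hypothesis of `nt_key` is trivial (`pow_zero`, `one_dvd`), and if `p ∣ nm ξ` then
`1 ≤ omegaP` (`omega_pos`), so `p ∣ z` and `p ∣ num` (`nt_num_of`).
-/

open NumberField PowerSeries H53M H94M H53N

namespace H36H

variable {F : Type*} [Field F] [NumberField F] [IsTotallyReal F]

/-- **Module N**: the relation. -/
theorem relHT (hd : 1 < Module.finrank ℚ F) (k N : ℕ) [NeZero N] (hk : 3 ≤ k)
    (A : KArr (F →+* ℝ) (TotPos F)) (hnu : ∀ ξ φ, A.nu ξ φ = φ ξ.1) (hT : DTransI1 N k A.G)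
    (v : ℕ) (hw : v + 6 = Module.finrank ℚ F * k + 4 * Module.finrank ℚ F)
    (η K : ℝ) (hη : η < 1 / (Module.finrank ℚ F : ℝ))
    (hE : ∀ X : ℕ, (Set.ncard {p : ℕ | p ≤ X ∧ p.Prime ∧
      ¬ ∀ ξ : TotPos F, (p : ℤ) ^ omegaD p (Ideal.span {ξ.1}) ∣ A.c ξ} : ℝ) ≤ K * (X : ℝ) ^ η) :
    Rel v (A.ht ^ 2) := by
  classical
  obtain ⟨d, hdd⟩ : ∃ d, d = Module.finrank ℚ F := ⟨_, rfl⟩
  rw [← hdd] at hd hw hη
  have hcard : Fintype.card (F →+* ℝ) = d := by rw [na_card, hdd]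
  obtain ⟨C, κ, hC⟩ := nt_growth A
  have hI0 : ∀ ξ : TotPos F, (Ideal.span {ξ.1} : Ideal (𝓞 F)) ≠ 0 := by
    intro ξ
    rw [Ne, Ideal.zero_eq_bot, Ideal.span_singleton_eq_bot]
    exact nb_ne ξ
  have hint : ∀ p : ℕ, p.Prime →
      ¬ (¬ ∀ ξ : TotPos F, (p : ℤ) ^ omegaD p (Ideal.span {ξ.1}) ∣ A.c ξ) →
      ∀ ξ : TotPos F, ¬ p ∣ ((A.c ξ * A.q3 ξ : ℚ) / A.nm ξ).den := by
    intro p hp hEp ξ
    rw [not_not] at hEp
    obtain ⟨m, z, hm, hz, -⟩ := nt_key A hnu ξ hp (hEp ξ)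
    exact nt_den_of hp hm hz
  refine rel_sparse_sq_eta d 1 v (3 * d + k - 4) (by omega) le_rfl (by omega) A.ht C κ hC
    (fun p => ¬ ∀ ξ : TotPos F, (p : ℤ) ^ omegaD p (Ideal.span {ξ.1}) ∣ A.c ξ) η K hη
    ⟨0, fun X _ => hE X⟩ ?_ ?_ (fun p => Pool.Agent.Lib.H59.degOne F p = 0)
    (fun η hη => noDegOne_theta F (by rw [← hdd]; exact hd) η hη) (max 5 d) (12 * (mu1 N + 1)) 0
    (by omega) ?_
  · intro n p hp
    have h := nt_den A n p hp
    rwa [hcard] at h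
  · intro p hp hEp n
    have : Fact p.Prime := ⟨hp⟩
    have h : PI p A.ht := by
      intro n
      unfold KArr.ht
      rw [coeff_mk]
      exact pi_sum _ _ fun ξ _ => hint p hp hEp ξ
    exact h n
  · intro p hpf hp3 hp0 hR hEp
    have hp : p.Prime := hpf.out
    have hp5 : 5 < p := lt_of_le_of_lt (le_max_left _ _) hp0
    have hpd : d < p := lt_of_le_of_lt (le_max_right _ _) hp0
    refine ⟨fun w => MN1 N p w, mfam_MN1 N p, ?_⟩
    have h := A.ht_MN1 hk hT p hp5 (by rw [hcard]; exact hd) (by rw [hcard]; exact hpd) ?_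
    · have e : d * k + 4 * d - 6 = v := by omega
      rw [hcard, e] at h
      exact h
    · intro ξ hpnm
      rw [not_not] at hEp
      obtain ⟨m, z, hm, hz, hzd⟩ := nt_key A hnu ξ hp (hEp ξ)
      have hω : 1 ≤ omegaP p (Ideal.span {ξ.1}) := by
        refine omega_pos hp _ (hI0 ξ) ?_
        rw [Ideal.absNorm_span_singleton, ← nb_nm A hnu ξ]
        exact Int.natCast_dvd.1 hpnm
      refine nt_num_of hp hm hz ?_
      rw [omegaD_zero hR _ (hI0 ξ), Nat.sub_zero] at hzd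
      exact (dvd_pow_self _ (by omega)).trans hzd

end H36H
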