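import Pool.Agent.Lib.H36T.X1

set_option autoImplicit false

/-!
# H36T, chunk U1 (S/M): the coefficients at the units

COPY of `xuW_pos`, `xuW_le` (Lib/H36H/XUN.lean) and `xb_eq1` (Lib/H53N/C.lean) with `(ν_j/N)²` in place of `ν_j/N`
(`zQ_eval_zero`; the product of the squares is the square of the product: `Finset.prod_pow`).
-/

open NumberField

namespace H36H

open H53M Filter Topology

variable {F : Type*} [Field F] [NumberField F]

theorem zuW_pos {N : ℕ} (hN : 0 < N) (k : ℕ) (i : F →+* ℝ) (ξ : TotPos F) : 0 < zuW N k i ξ := by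
  have hN' : (0 : ℝ) < N := by exact_mod_cast hN
  unfold zuW
  refine mul_pos (Finset.prod_pos fun j _ => pow_pos (div_pos (ξ.2 j) hN') 2) (pow_pos ?_ _)
  exact inv_pos.2 (div_pos (ξ.2 i) hN')

variable [IsTotallyReal F]

theorem zuW_le {N : ℕ} (hN : 0 < N) (k : ℕ) :
    ∃ C : ℝ, ∃ K : ℕ, ∀ (i : F →+* ℝ) (ξ : TotPos F), zuW N k i ξ ≤ C * ((inTr ξ : ℝ) + 1) ^ K := by
  classical
  have hN' : (0 : ℝ) < N := by exact_mod_cast hN
  have hN1 : (1 : ℝ) ≤ N := by exact_mod_cast hN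
  refine ⟨(N : ℝ) ^ (k - 1), Fintype.card (F →+* ℝ) * 2 + Fintype.card (F →+* ℝ) * (k - 1),
    fun i ξ => ?_⟩
  have ht : (0 : ℝ) ≤ inTr ξ := Nat.cast_nonneg _
  unfold zuW
  have e0 : ∏ j ∈ Finset.univ.erase i, (j (ξ.1 : F) / N) ≤
      ((inTr ξ : ℝ) + 1) ^ Fintype.card (F →+* ℝ) := by
    refine le_trans (Finset.prod_le_prod (fun j _ => (div_pos (ξ.2 j) hN').le) fun j _ => ?_)
      (xun_prod_le ξ i)
    exact div_le_self (ξ.2 j).le hN1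
  have e00 : 0 ≤ ∏ j ∈ Finset.univ.erase i, (j (ξ.1 : F) / (N : ℝ)) :=
    Finset.prod_nonneg fun j _ => (div_pos (ξ.2 j) hN').le
  have e1 : ∏ j ∈ Finset.univ.erase i, (j (ξ.1 : F) / N) ^ 2 ≤
      (((inTr ξ : ℝ) + 1) ^ Fintype.card (F →+* ℝ)) ^ 2 := by
    rw [Finset.prod_pow]
    exact pow_le_pow_left₀ e00 e0 2
  have e2 : ((i (ξ.1 : F) / N)⁻¹) ^ (k - 1) ≤
      (N * ((inTr ξ : ℝ) + 1) ^ Fintype.card (F →+* ℝ)) ^ (k - 1) := by
    refine pow_le_pow_left₀ (inv_pos.2 (div_pos (ξ.2 i) hN')).le ?_ _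
    rw [inv_div, div_eq_mul_inv]
    exact mul_le_mul_of_nonneg_left (xun_inv_le ξ i) hN'.le
  calc _ ≤ (((inTr ξ : ℝ) + 1) ^ Fintype.card (F →+* ℝ)) ^ 2 *
        (N * ((inTr ξ : ℝ) + 1) ^ Fintype.card (F →+* ℝ)) ^ (k - 1) :=
        mul_le_mul e1 e2 (pow_nonneg (inv_pos.2 (div_pos (ξ.2 i) hN')).le _) (by positivity)
    _ = _ := by
        rw [mul_pow, ← pow_mul, ← pow_mul, pow_add]
        ring

open scoped Classical in
theorem zb_eq {N k : ℕ} (hN : 0 < N) {c : 𝓞 F → ℤ}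
    (h : IsDiagCusp1 N k (fun ξ => (c ξ : ℂ))) (y : ℝ) (i : F →+* ℝ) (ξ : TotPos F) :
    (karr1 h).zb N k (1 + N * (Complex.I * y)) (i, ξ) = xuTerm c (zuW N k) (-(1 / N)) y i ξ := by
  have hN' : (N : ℂ) ≠ 0 := by exact_mod_cast hN.ne'
  unfold KArr.zb KArr.zc KArr.xv KArr.xu xuTerm zuW X.ex
  simp only [zQ_eval_zero]
  have hnu : ∀ j : F →+* ℝ, (karr1 h).nu ξ j = j (ξ.1 : F) := fun _ => rfl
  have htr : (karr1 h).tr ξ = inTr ξ := rfl
  have hc : (karr1 h).c ξ = c ξ.1 := rfl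
  simp only [hnu, htr, hc]
  push_cast
  have e1 : Complex.exp (2 * Real.pi * Complex.I * ((-1 : ℂ) * (inTr ξ : ℂ) / (N : ℂ))) *
      Complex.exp (2 * Real.pi * Complex.I * (((inTr ξ : ℂ) - (i (ξ.1 : F) : ℂ)) / (N : ℂ) *
        (1 + N * (Complex.I * y)))) =
      Complex.exp (2 * Real.pi * Complex.I * (-(1 / (N : ℂ)) * (i (ξ.1 : F) : ℂ))) *
        Complex.exp (-(2 * Real.pi * ((inTr ξ : ℂ) - (i (ξ.1 : F) : ℂ)) * y)) := by
    rw [← Complex.exp_add, ← Complex.exp_add]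
    congr 1
    field_simp
    ring_nf
    rw [Complex.I_sq]
    ring
  have e2 : ∀ a b P Q e1 e2 e3 e4 : ℂ, e1 * e2 = e3 * e4 → a * e1 * P * Q * e2 =
      a * (P * Q) * e3 * e4 := by
    intro a b P Q e1 e2 e3 e4 h
    linear_combination (a * P * Q) * h
  exact e2 _ 0 _ _ _ _ _ _ e1

end H36H
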