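import Pool.Agent.Lib.H36T.D0

set_option autoImplicit false

/-!
# H36T, chunk W1 (S): basic properties of `omegaD`

COPY of `omegaP_mul`, `omegaP_one`, `omegaP_pow`, `omegaP_pow_of_not` (Lib/H36H/W1.lean) and of `omegaP_prime`,
`omegaP_prime_not` (Lib/H36H/NA.lean), with the condition `absNorm P = p` in place of `(p : 𝓞 F) ∈ P`.
`omegaD_le`: `absNorm P = p` implies `(p : 𝓞 F) ∈ P` (`Ideal.absNorm_mem P`), `Multiset.countP_le_countP` or
`Multiset.countP_mono`-type lemma (or induction with `na_ind`).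
`omegaD_zero`: if `degOne F p = 0` there is no prime of norm `p` (see `sq_dvd_norm` in NA.lean).
-/

open NumberField UniqueFactorizationMonoid IsDedekindDomain

namespace H36H

variable {F : Type*} [Field F] [NumberField F]

/-- Induction over the prime factors. -/
theorem w1_ind (Q : Ideal (𝓞 F) → Prop) (h1 : Q 1)
    (h2 : ∀ P I : Ideal (𝓞 F), Prime P → I ≠ 0 → Q I → Q (P * I)) (I : Ideal (𝓞 F)) (hI : I ≠ 0) :
    Q I := by
  induction I using induction_on_prime with
  | h₁ => exact absurd rfl hI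
  | h₂ x hx =>
    rw [Ideal.isUnit_iff, ← Ideal.one_eq_top] at hx
    rw [hx]
    exact h1
  | h₃ a P ha hP ih => exact h2 P a hP ha (ih ha)

theorem omegaD_mul (p : ℕ) {I J : Ideal (𝓞 F)} (hI : I ≠ 0) (hJ : J ≠ 0) :
    omegaD p (I * J) = omegaD p I + omegaD p J := by
  unfold omegaD
  rw [normalizedFactors_mul hI hJ, Multiset.countP_add]

theorem omegaD_one (p : ℕ) : omegaD p (1 : Ideal (𝓞 F)) = 0 := by
  unfold omegaD
  rw [normalizedFactors_one]
  simp

theorem omegaD_pow (p : ℕ) {P : Ideal (𝓞 F)} (hP : Prime P) (n : ℕ) (hp : Ideal.absNorm P = p) :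
    omegaD p (P ^ n) = n := by
  classical
  unfold omegaD
  rw [hP.irreducible.normalizedFactors_pow, normalize_eq, Multiset.countP_eq_card.2,
    Multiset.card_replicate]
  intro Q hQ
  rw [Multiset.eq_of_mem_replicate hQ]
  exact hp

theorem omegaD_pow_of_not (p : ℕ) {P : Ideal (𝓞 F)} (hP : Prime P) (n : ℕ)
    (hp : ¬ Ideal.absNorm P = p) : omegaD p (P ^ n) = 0 := by
  classical
  unfold omegaD
  rw [hP.irreducible.normalizedFactors_pow, normalize_eq, Multiset.countP_eq_zero]
  intro Q hQ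
  rw [Multiset.eq_of_mem_replicate hQ]
  exact hp

theorem omegaD_prime (p : ℕ) {P : Ideal (𝓞 F)} (hP : Prime P) (hp : Ideal.absNorm P = p) :
    omegaD p P = 1 := by
  have h := omegaD_pow p hP 1 hp
  rwa [pow_one] at h

theorem omegaD_prime_not (p : ℕ) {P : Ideal (𝓞 F)} (hP : Prime P) (hp : ¬ Ideal.absNorm P = p) :
    omegaD p P = 0 := by
  have h := omegaD_pow_of_not p hP 1 hp
  rwa [pow_one] at h

theorem omegaD_le (p : ℕ) (I : Ideal (𝓞 F)) (hI : I ≠ 0) : omegaD p I ≤ omegaP p I := by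
  refine w1_ind (fun I => omegaD p I ≤ omegaP p I) ?_ ?_ I hI
  · rw [omegaD_one]
    exact Nat.zero_le _
  · intro P I hP hI0 ih
    rw [omegaD_mul p hP.ne_zero hI0, omegaP_mul p hP.ne_zero hI0]
    refine Nat.add_le_add ?_ ih
    by_cases h : Ideal.absNorm P = p
    · have hm : (p : 𝓞 F) ∈ P := by
        have h0 := Ideal.absNorm_mem P
        rwa [h] at h0
      rw [omegaD_prime p hP h]
      have h1 := omegaP_pow p hP 1 hm
      rw [pow_one] at h1
      rw [h1]
    · rw [omegaD_prime_not p hP h]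
      exact Nat.zero_le _

theorem omegaD_zero {p : ℕ} (h : Pool.Agent.Lib.H59.degOne F p = 0) (I : Ideal (𝓞 F))
    (hI : I ≠ 0) : omegaD p I = 0 := by
  refine w1_ind (fun I => omegaD p I = 0) ?_ ?_ I hI
  · exact omegaD_one p
  · intro P I hP hI0 ih
    rw [omegaD_mul p hP.ne_zero hI0, ih, Nat.add_zero]
    by_cases hn : Ideal.absNorm P = p
    · exfalso
      haveI := Ideal.isPrime_of_prime hP
      have h3 : (⟨P, this, hP.ne_zero⟩ : HeightOneSpectrum (𝓞 F)) ∈
          Pool.Agent.Lib.H59.degOneSet F p := Pool.Agent.Lib.H59.mem_degOneSet.2 hn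
      rw [← Pool.Agent.Lib.H59.card_degOneSet, Finset.card_eq_zero] at h
      rw [h] at h3
      exact absurd h3 (Finset.notMem_empty _)
    · exact omegaD_prime_not p hP hn

end H36H
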