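import Pool.Agent.Lib.H36T.W1

set_option autoImplicit false

/-!
# H36T, chunk W2 (S/M): the Hecke recursion and `omegaD`

COPY of `IsHecke.pow_dvd` (Lib/H36H/W1.lean, 60 lines) with `omegaD`, W1 of this directory, and the case distinction
`Ideal.absNorm P = p` in place of `(p : 𝓞 F) ∈ P`. In the case `absNorm P = p` use `h1 : (p : R)^2 ∣ (absNorm P : R)^(k-1)`
(`absNorm P = p`, `pow_dvd_pow`, `k - 1 ≥ 2`).
-/

open NumberField UniqueFactorizationMonoid

namespace H36H

variable {F : Type*} [Field F] [NumberField F]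

theorem IsHecke.pow_dvdD {R : Type*} [CommRing R] {k : ℕ} (hk : 3 ≤ k) {𝔫 : Ideal (𝓞 F)}
    {χ C : Ideal (𝓞 F) → R} (hC : IsHecke k 𝔫 χ C) {p : ℕ} (hp : p.Prime)
    (hpn : ∀ P : Ideal (𝓞 F), P.IsPrime → P ≠ ⊥ → Ideal.absNorm P = p → ¬ P ∣ 𝔫)
    (hord : ∀ P : Ideal (𝓞 F), P.IsPrime → P ≠ ⊥ → Ideal.absNorm P = p → (p : R) ∣ C P)
    (I : Ideal (𝓞 F)) (hI : I ≠ 0) : (p : R) ^ omegaD p I ∣ C I := by
  classical
  induction I using induction_on_coprime with
  | h0 => exact absurd rfl hI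
  | h1 hx =>
    rw [Ideal.isUnit_iff, ← Ideal.one_eq_top] at hx
    rw [hx, omegaD_one]
    simp
  | hpr n hP =>
    rename_i P
    have hP0 : P ≠ ⊥ := hP.ne_zero
    have hPp : P.IsPrime := Ideal.isPrime_of_prime hP
    by_cases h : Ideal.absNorm P = p
    · rw [omegaD_pow p hP n h]
      have key : ∀ n : ℕ, (p : R) ^ n ∣ C (P ^ n) ∧ (p : R) ^ (n + 1) ∣ C (P ^ (n + 1)) := by
        intro n
        induction n with
        | zero =>
          refine ⟨by simp, ?_⟩
          simpa using hord P hPp hP0 h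
        | succ n ih =>
          refine ⟨ih.2, ?_⟩
          rw [hC.hecke P hPp hP0 (hpn P hPp hP0 h) n]
          refine dvd_sub ?_ ?_
          · rw [pow_succ']
            exact mul_dvd_mul (hord P hPp hP0 h) ih.2
          · have h1 : (p : R) ^ 2 ∣ (Ideal.absNorm P : R) ^ (k - 1) := by
              rw [h]
              exact pow_dvd_pow _ (by omega)
            have h2 : (p : R) ^ (n + 1 + 1) = (p : R) ^ 2 * (p : R) ^ n := by ring
            rw [h2]
            exact mul_dvd_mul (h1.mul_left _) ih.1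
      exact (key n).1
    · rw [omegaD_pow_of_not p hP n h]
      simp
  | hcp hxy hx hy =>
    rename_i x y
    have hx0 : x ≠ 0 := left_ne_zero_of_mul hI
    have hy0 : y ≠ 0 := right_ne_zero_of_mul hI
    rw [omegaD_mul p hx0 hy0, pow_add, hC.mul x y (by
      exact Ideal.isCoprime_iff_gcd.2 ((gcd_isUnit_iff_isRelPrime.2 hxy |> isUnit_iff_eq_one.1)))]
    exact mul_dvd_mul (hx hx0) (hy hy0)

end H36H
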