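import Pool.Agent.Lib.H36T.W2

set_option autoImplicit false

/-!
# H36T, chunk W3 (S/M): no ordinary prime of degree one above `p`

COPY of `dvd_of_not_ord` (Lib/H36H/W3.lean) with `IsHecke.pow_dvdD`, `absNorm P = p` in place of `(p : 𝓞 F) ∈ P`
(`f = 1` there: `hfP : absNorm P = p`).
-/

open NumberField UniqueFactorizationMonoid

namespace H36H

variable {F : Type*} [Field F] [NumberField F]

theorem dvd_of_not_ordD {E : Type*} [Field E] [NumberField E] {k : ℕ} (hk : 3 ≤ k)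
    {𝔫 : Ideal (𝓞 F)} {χ C : Ideal (𝓞 F) → 𝓞 E} (hC : IsHecke k 𝔫 χ C)
    (hχ : ∀ P : Ideal (𝓞 F), P.IsPrime → P ≠ ⊥ → ¬ P ∣ 𝔫 → IsUnit (χ P)) (p : ℕ) [Fact p.Prime]
    (hpn : ∀ P : Ideal (𝓞 F), P.IsPrime → P ≠ ⊥ → Ideal.absNorm P = p → ¬ P ∣ 𝔫)
    (hpd : ¬ (p : ℤ) ∣ discr E)
    (hno : ∀ P : Ideal (𝓞 F), P.IsPrime → P ≠ ⊥ → Ideal.absNorm P = p → ¬ IsOrd k χ C p P)
    (I : Ideal (𝓞 F)) (hI : I ≠ 0) : (p : 𝓞 E) ^ omegaD p I ∣ C I := by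
  have hp : p.Prime := Fact.out
  refine hC.pow_dvdD hk hp hpn (fun P hP hP0 hpP => ?_) I hI
  have hsm : ∀ τ : E →+* PadicAlgCl p, ‖τ (C P : E)‖ < 1 := by
    intro τ
    refine lt_of_le_of_ne (H94M.TR_norm_le p τ (C P)) fun h => hno P hP hP0 hpP ⟨τ, ?_⟩
    have hfP : Ideal.absNorm P = p ^ 1 := by rw [hpP, pow_one]
    have hp1 : (1 : ℝ) < p := by exact_mod_cast hp.one_lt
    have hqn : ‖τ (χ P : E) * (Ideal.absNorm P : PadicAlgCl p) ^ (k - 1)‖ =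
        (Ideal.absNorm P : ℝ) ^ (-((k : ℤ) - 1)) := by
      rw [norm_mul, norm_unit p τ _ (hχ P hP hP0 (hpn P hP hP0 hpP)), one_mul, norm_pow, hfP]
      push_cast
      rw [norm_pow, norm_natCast, inv_pow, ← zpow_natCast ((p : ℝ) ^ 1)⁻¹ (k - 1), inv_zpow',
        Nat.cast_sub (by omega : 1 ≤ k), Nat.cast_one]
    have hq1 : ‖τ (χ P : E) * (Ideal.absNorm P : PadicAlgCl p) ^ (k - 1)‖ < 1 := by
      rw [norm_mul, norm_unit p τ _ (hχ P hP hP0 (hpn P hP hP0 hpP)), one_mul, norm_pow, hfP]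
      push_cast
      rw [norm_pow, norm_natCast, ← pow_mul]
      exact pow_lt_one₀ (by positivity) (inv_lt_one_of_one_lt₀ hp1)
        (Nat.mul_pos (by omega) (by omega)).ne'
    obtain ⟨x, y, hx1, hx2, hx3, hx4⟩ := roots_of_unit p _ _ h hq1
    exact ⟨x, y, hx1, hx2, hx3, hx4.trans hqn⟩
  obtain ⟨m, hm⟩ := H94M.TR_dvd_pow_of_norm p (C P) hsm
  exact H94M.TR_dvd_of_pow hp hpd _ m hm

end H36H
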