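import Pool.Agent.Lib.H36T.W1

set_option autoImplicit false

/-!
# H36T, chunk W4 (S): norm and `omegaD`

`p^(2 omegaP)` divides `N(I) p^omegaD`: induction `na_ind` (Lib/H36H/NA.lean) as in `omega_norm`. For a prime `P` with
`(p : 𝓞 F) ∈ P`: `absNorm P = p^f` (`absNorm_pow`), `f = 1`: factors `p^2 ∣ p * p`; `f ≥ 2`: `p^2 ∣ p^f * 1`
(`omegaD_prime_not`, `p^f ≠ p`). For `(p : 𝓞 F) ∉ P`: `absNorm P ≠ p` (`Ideal.absNorm_mem`), both counts are `0`.
-/

open NumberField UniqueFactorizationMonoid

namespace H36H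

variable {F : Type*} [Field F] [NumberField F]

theorem omegaD_norm {p : ℕ} (hp : p.Prime) (I : Ideal (𝓞 F)) (hI : I ≠ 0) :
    p ^ (2 * omegaP p I) ∣ Ideal.absNorm I * p ^ omegaD p I := by
  refine na_ind p (fun I => p ^ (2 * omegaP p I) ∣ Ideal.absNorm I * p ^ omegaD p I) ?_ ?_ I hI
  · rw [omegaP_one, omegaD_one]
    simp
  · intro P I hP hI0 ih
    rw [omegaP_mul p hP.ne_zero hI0, omegaD_mul p hP.ne_zero hI0, map_mul]
    by_cases hpP : (p : 𝓞 F) ∈ P
    · rw [omegaP_prime p hP hpP]
      obtain ⟨f, hf1, hf⟩ := absNorm_pow hp hP hpP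
      have e1 : p ^ (2 * (1 + omegaP p I)) = p ^ 2 * p ^ (2 * omegaP p I) := by ring
      have e2 : Ideal.absNorm P * Ideal.absNorm I * p ^ (omegaD p P + omegaD p I) =
          (Ideal.absNorm P * p ^ omegaD p P) * (Ideal.absNorm I * p ^ omegaD p I) := by ring
      rw [e1, e2]
      refine mul_dvd_mul ?_ ih
      by_cases hd : Ideal.absNorm P = p
      · rw [omegaD_prime p hP hd, hd]
        rw [pow_one, pow_two]
      · have hf2 : 2 ≤ f := by
          rcases Nat.lt_or_ge f 2 with h2 | h2
          · exfalso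
            have hf' : f = 1 := by omega
            rw [hf', pow_one] at hf
            exact hd hf
          · exact h2
        rw [hf]
        exact (pow_dvd_pow p hf2).mul_right _
    · have hd : ¬ Ideal.absNorm P = p := by
        intro h
        apply hpP
        have h2 := Ideal.absNorm_mem P
        rwa [h] at h2
      rw [omegaP_prime_not p hP hpP, omegaD_prime_not p hP hd, zero_add, zero_add, mul_assoc]
      exact ih.mul_left _

end H36H
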