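import Pool.Agent.Lib.H36T.W3

set_option autoImplicit false

/-!
# H36T, chunk W5 (M): from rational integral coefficients to coefficients in a number field

COPY of `hilbert_of1` (Lib/H53N/M.lean, 110 lines) with `StHT`, `omegaD`, `dvd_of_not_ordD` and `Ideal.absNorm P = p` in
place of `(p : 𝓞 F) ∈ P`. (`exists_bound_level` gives `¬ P ∣ 𝔫` for the `P` with `(p : 𝓞 F) ∈ P`, and `absNorm P = p`
implies it: `Ideal.absNorm_mem P`.)
-/

open NumberField UniqueFactorizationMonoid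

namespace H36H

variable {F : Type*} [Field F] [NumberField F]

theorem hilbert_ofT [IsTotallyReal F] (hH : StHT F) (k : ℕ) (hk : 4 ≤ k) (𝔫 : Ideal (𝓞 F)) (h𝔫 : 𝔫 ≠ ⊥)
    (E : Type*) [Field E] [NumberField E] (χ C : Ideal (𝓞 F) → 𝓞 E) (hC : IsHecke k 𝔫 χ C)
    (hχ : ∀ P : Ideal (𝓞 F), P.IsPrime → P ≠ ⊥ → ¬ P ∣ 𝔫 → IsUnit (χ P))
    (hf : ∀ σ : E →+* ℂ, ∃ N : ℕ, 0 < N ∧ IsDiagCusp1 N k (fun ξ => σ (C (Ideal.span {ξ}) : E)))
    (η : ℝ) (hη : η < 1 / (Module.finrank ℚ F : ℝ)) :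
    ¬ ∃ K : ℝ, ∀ X : ℕ, (Set.ncard {p : ℕ | p ≤ X ∧ ∃ (_ : Fact p.Prime) (P : Ideal (𝓞 F)),
      P.IsPrime ∧ Ideal.absNorm P = p ∧ ¬ P ∣ 𝔫 ∧ IsOrd k χ C p P} : ℝ) ≤ K * (X : ℝ) ^ η := by
  rintro ⟨K, hK⟩
  choose N hN0 hN using hf
  have hN1 : ∀ σ : E →+* ℂ, IsDiagCusp1 (∏ σ : E →+* ℂ, N σ) k
      (fun ξ => σ (C (Ideal.span {ξ}) : E)) := fun σ =>
    (hN σ).mono (Finset.dvd_prod_of_mem N (Finset.mem_univ σ))
  have hfin : 0 < Module.finrank ℚ F := Module.finrank_pos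
  have hη' : max η 0 < 1 / (Module.finrank ℚ F : ℝ) := max_lt hη (by positivity)
  have hc1 : Algebra.trace ℤ (𝓞 E) (C (Ideal.span {(1 : 𝓞 F)})) ≠ 0 := by
    intro h0
    have h2 := H94M.TR_trace (E := E) (C (Ideal.span {(1 : 𝓞 F)}))
    rw [h0, Ideal.span_singleton_one, ← Ideal.one_eq_top, hC.one] at h2
    have h3 : (∑ σ : E →ₐ[ℚ] ℂ, σ ((1 : 𝓞 E) : E)) = (Fintype.card (E →ₐ[ℚ] ℂ) : ℂ) := by
      simp
    rw [h3, AlgHom.card] at h2
    have h4 : 0 < Module.finrank ℚ E := Module.finrank_pos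
    have h5 : (0 : ℂ) = (Module.finrank ℚ E : ℂ) := by simpa using h2
    rw [eq_comm, Nat.cast_eq_zero] at h5
    omega
  refine hH k hk (∏ σ : E →+* ℂ, N σ) (Finset.prod_pos fun σ _ => hN0 σ) (fun ξ => Algebra.trace ℤ (𝓞 E) (C (Ideal.span {ξ}))) hc1 ?_ ?_ (max η 0) hη' ?_
  · intro ε hε _
    have : Ideal.span {ε} = Ideal.span {(1 : 𝓞 F)} := by
      rw [Ideal.span_singleton_one]
      exact Ideal.span_singleton_eq_top.2 hε
    show Algebra.trace ℤ (𝓞 E) (C (Ideal.span {ε})) = Algebra.trace ℤ (𝓞 E) (C (Ideal.span {(1 : 𝓞 F)}))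
    rw [this]
  · rw [trace_coeff]
    exact IsDiagCusp1.sum _ _ fun σ _ => hN1 (σ : E →+* ℂ)
  · obtain ⟨M, hM⟩ := exists_bound_level 𝔫 h𝔫
    obtain ⟨M', hM'⟩ : ∃ M', M' = max M (discr E).natAbs := ⟨_, rfl⟩
    refine ⟨max K 0 + (M' + 1), fun X => ?_⟩
    rcases Nat.eq_zero_or_pos X with hX | hX
    · have : {p : ℕ | p ≤ X ∧ p.Prime ∧
          ¬ ∀ ξ : TotPos F, (p : ℤ) ^ omegaD p (Ideal.span {ξ.1}) ∣
            Algebra.trace ℤ (𝓞 E) (C (Ideal.span {ξ.1}))} = ∅ := by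
        rw [Set.eq_empty_iff_forall_notMem]
        rintro p ⟨h1, h2, -⟩
        have := h2.pos
        omega
      rw [this, Set.ncard_empty]
      have h1 : (0 : ℝ) ≤ (X : ℝ) ^ max η 0 := Real.rpow_nonneg (Nat.cast_nonneg _) _
      have h2 : (0 : ℝ) ≤ max K 0 + (M' + 1) := by positivity
      simpa using mul_nonneg h2 h1
    have hX1 : (1 : ℝ) ≤ X := by exact_mod_cast hX
    have hsub : {p : ℕ | p ≤ X ∧ p.Prime ∧
          ¬ ∀ ξ : TotPos F, (p : ℤ) ^ omegaD p (Ideal.span {ξ.1}) ∣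
            Algebra.trace ℤ (𝓞 E) (C (Ideal.span {ξ.1}))} ⊆
        {p : ℕ | p ≤ X ∧ ∃ (_ : Fact p.Prime) (P : Ideal (𝓞 F)),
          P.IsPrime ∧ Ideal.absNorm P = p ∧ ¬ P ∣ 𝔫 ∧ IsOrd k χ C p P} ∪ Set.Iic M' := by
      rintro p ⟨h1, h2, h3⟩
      by_cases h4 : p ≤ M'
      · exact Or.inr h4
      · left
        refine ⟨h1, ⟨h2⟩, ?_⟩
        have hF : Fact p.Prime := ⟨h2⟩
        by_contra hc
        push Not at hc
        apply h3
        intro ξ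
        have hpn := hM p h2 (lt_of_le_of_lt (hM' ▸ le_max_left _ _) (not_le.1 h4))
        have hpd : ¬ (p : ℤ) ∣ discr E := by
          intro h
          have h5 : p ∣ (discr E).natAbs := by
            have := Int.natAbs_dvd_natAbs.2 h
            simpa using this
          exact absurd (Nat.le_of_dvd (Int.natAbs_pos.2 (discr_ne_zero E)) h5)
            (not_le.2 (lt_of_le_of_lt (hM' ▸ le_max_right _ _) (not_le.1 h4)))
        have hξ0 : (Ideal.span {ξ.1} : Ideal (𝓞 F)) ≠ 0 := by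
          intro h
          have h6 : ξ.1 = 0 := Ideal.span_singleton_eq_bot.1 h
          have h7 := ξ.2 (exists_real F).some
          rw [h6] at h7
          simp at h7
        obtain ⟨y, hy⟩ := dvd_of_not_ordD (by omega) hC hχ p
          (fun P hP hP0 hpP => hpn P hP hP0 (hpP ▸ Ideal.absNorm_mem P)) hpd
          (fun P hP hP0 hpP => hc P hP hpP (hpn P hP hP0 (hpP ▸ Ideal.absNorm_mem P))) _ hξ0
        have h8 : C (Ideal.span {ξ.1}) = ((p : ℤ) ^ omegaD p (Ideal.span {ξ.1})) • y := by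
          rw [hy, zsmul_eq_mul]
          push_cast
          rfl
        rw [h8, map_smul, smul_eq_mul]
        exact dvd_mul_right _ _
    have hfinite : ({p : ℕ | p ≤ X ∧ ∃ (_ : Fact p.Prime) (P : Ideal (𝓞 F)),
          P.IsPrime ∧ Ideal.absNorm P = p ∧ ¬ P ∣ 𝔫 ∧ IsOrd k χ C p P} ∪ Set.Iic M').Finite :=
      ((Set.finite_Iic X).subset fun p hp => hp.1).union (Set.finite_Iic M')
    have h1 := Set.ncard_le_ncard hsub hfinite
    have h2 := h1.trans (Set.ncard_union_le _ _)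
    have h3 : (Set.Iic M').ncard = M' + 1 := by
      rw [← Finset.coe_Iic, Set.ncard_coe_finset, Nat.card_Iic]
    rw [h3] at h2
    have h4 : (X : ℝ) ^ η ≤ (X : ℝ) ^ max η 0 := Real.rpow_le_rpow_of_exponent_le hX1 (le_max_left _ _)
    have h5 : (1 : ℝ) ≤ (X : ℝ) ^ max η 0 := Real.one_le_rpow hX1 (le_max_right _ _)
    have h6 := hK X
    have h7 : K * (X : ℝ) ^ η ≤ max K 0 * (X : ℝ) ^ max η 0 := by
      have h8 : (0 : ℝ) ≤ (X : ℝ) ^ η := Real.rpow_nonneg (by linarith) _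
      exact (mul_le_mul_of_nonneg_right (le_max_left K 0) h8).trans
        (mul_le_mul_of_nonneg_left h4 (le_max_right K 0))
    have h9 : ((M' : ℝ) + 1) ≤ ((M' : ℝ) + 1) * (X : ℝ) ^ max η 0 :=
      le_mul_of_one_le_right (by positivity) h5
    have h10 : (Set.ncard {p : ℕ | p ≤ X ∧ p.Prime ∧
          ¬ ∀ ξ : TotPos F, (p : ℤ) ^ omegaD p (Ideal.span {ξ.1}) ∣
            Algebra.trace ℤ (𝓞 E) (C (Ideal.span {ξ.1}))} : ℝ) ≤
        (Set.ncard {p : ℕ | p ≤ X ∧ ∃ (_ : Fact p.Prime) (P : Ideal (𝓞 F)),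
          P.IsPrime ∧ Ideal.absNorm P = p ∧ ¬ P ∣ 𝔫 ∧ IsOrd k χ C p P} : ℝ) + ((M' : ℝ) + 1) := by
      exact_mod_cast h2
    calc _ ≤ _ := h10
      _ ≤ max K 0 * (X : ℝ) ^ max η 0 + ((M' : ℝ) + 1) * (X : ℝ) ^ max η 0 := by linarith
      _ = (max K 0 + (M' + 1)) * (X : ℝ) ^ max η 0 := by ring

end H36H
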