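import Pool.Agent.Lib.H36T.D0

set_option autoImplicit false

/-!
# H36T, chunk X1 (S/M): the polynomials `zQ`

`zf_eval`: `simp [zf]`. `zQ_eval_zero`: `Polynomial.eval_prod`, `zf_eval` at `x = 0`.
`zQ_natDegree`: `Polynomial.natDegree_prod_le`, every factor has `natDegree ≤ 2` (`compute_degree`), and
`card (univ.erase i) = d - 1`: `≤ 2 (d - 1) < 2 d` (`Finset.card_pos`: `ι` is not empty).
`zQ_eval_sum`: `Polynomial.eval_eq_sum_range'`.
-/

namespace H36H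

open H53M H94M Function

variable {ι Λ : Type*} [Fintype ι] [DecidableEq ι]

theorem zf_eval (k : ℕ) (y x : ℂ) : (zf k y).eval x =
    y ^ 2 + 2 * ((k : ℂ) + 1) * (zk * x) * y + (k : ℂ) * ((k : ℂ) + 1) * (zk * x) ^ 2 := by
  simp only [zf, Polynomial.eval_add, Polynomial.eval_mul, Polynomial.eval_C, Polynomial.eval_X,
    Polynomial.eval_pow]
  ring

theorem zQ_eval (A : KArr ι Λ) (N k : ℕ) (i : ι) (ξ : Λ) (x : ℂ) : (A.zQ N k i ξ).eval x =
    ∏ j ∈ Finset.univ.erase i, (((A.nu ξ j : ℂ) / (N : ℂ)) ^ 2 +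
      2 * ((k : ℂ) + 1) * (zk * x) * ((A.nu ξ j : ℂ) / (N : ℂ)) +
      (k : ℂ) * ((k : ℂ) + 1) * (zk * x) ^ 2) := by
  unfold KArr.zQ
  rw [Polynomial.eval_prod]
  exact Finset.prod_congr rfl fun j _ => zf_eval k _ x

theorem zQ_eval_zero (A : KArr ι Λ) (N k : ℕ) (i : ι) (ξ : Λ) :
    (A.zQ N k i ξ).eval 0 = ∏ j ∈ Finset.univ.erase i, ((A.nu ξ j : ℂ) / (N : ℂ)) ^ 2 := by
  rw [zQ_eval]
  refine Finset.prod_congr rfl fun j _ => ?_
  ring

theorem zQ_natDegree (A : KArr ι Λ) (N k : ℕ) (i : ι) (ξ : Λ) :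
    (A.zQ N k i ξ).natDegree < 2 * Fintype.card ι := by
  unfold KArr.zQ
  have h1 := Polynomial.natDegree_prod_le (Finset.univ.erase i)
    (fun j => zf k ((A.nu ξ j : ℂ) / (N : ℂ)))
  have h2 : ∀ y : ℂ, (zf k y).natDegree ≤ 2 := by
    intro y
    unfold zf
    compute_degree
  have h3 : ∑ j ∈ Finset.univ.erase i, (zf k ((A.nu ξ j : ℂ) / (N : ℂ))).natDegree ≤
      (Finset.univ.erase i).card * 2 := Finset.sum_le_card_nsmul _ _ _ (fun j _ => h2 _)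
  rw [Finset.card_erase_of_mem (Finset.mem_univ i), Finset.card_univ] at h3
  have h4 : 0 < Fintype.card ι := Fintype.card_pos_iff.mpr ⟨i⟩
  omega

theorem zQ_eval_sum (A : KArr ι Λ) (N k : ℕ) (i : ι) (ξ : Λ) (x : ℂ) :
    (A.zQ N k i ξ).eval x = ∑ m ∈ Finset.range (2 * Fintype.card ι),
      (A.zQ N k i ξ).coeff m * x ^ m :=
  Polynomial.eval_eq_sum_range' (zQ_natDegree A N k i ξ) x

end H36H
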