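import Pool.Agent.Lib.H36T.X1
import Pool.Agent.Lib.H36H.XF

set_option autoImplicit false

/-!
# H36T, chunk X2 (M): bound of the coefficients of `zQ`

`pb_mul`: `Σ_{m ∈ s} ‖(P Q)_m‖ ≤ A B`. `zf_pb`: for a real `y ≥ 0`: the coefficients of `zf k y` are `y²`, `2(k+1)κy`,
`k(k+1)κ²`, `‖κ‖ ≤ 1` (`‖zk‖ = 1/(2π)`), so the sum of the norms is at most `((k+1)(y+1))²`.
`zQ_coeff_le`: induction over the finset, each `y_j = ν_j/N ≤ s := tr ξ - ν_i` for `j ≠ i` (`KArr.XF_sum`,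
`Finset.single_le_sum`, `N ≥ 1`), card `≤ d`.
-/

namespace H36H

open H53M H94M Function

/-- The sum of the absolute values of the coefficients is at most `A`. -/
def PB (P : Polynomial ℂ) (A : ℝ) : Prop := ∀ s : Finset ℕ, ∑ m ∈ s, ‖P.coeff m‖ ≤ A

theorem x2_nonneg {P : Polynomial ℂ} {A : ℝ} (h : PB P A) : 0 ≤ A := by
  have h1 := h ∅
  rwa [Finset.sum_empty] at h1

theorem x2_mono {P : Polynomial ℂ} {A B : ℝ} (h : PB P A) (hAB : A ≤ B) : PB P B :=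
  fun s => (h s).trans hAB

theorem x2_add {P Q : Polynomial ℂ} {A B : ℝ} (hP : PB P A) (hQ : PB Q B) : PB (P + Q) (A + B) := by
  intro s
  refine (Finset.sum_le_sum (fun m _ => ?_)).trans
    ((Finset.sum_add_distrib (f := fun m => ‖P.coeff m‖) (g := fun m => ‖Q.coeff m‖)).le.trans
      (add_le_add (hP s) (hQ s)))
  rw [Polynomial.coeff_add]
  exact norm_add_le _ _

theorem x2_mon (c : ℂ) (a : ℕ) : PB (Polynomial.C c * Polynomial.X ^ a) ‖c‖ := by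
  intro s
  have h1 : ∀ m ∈ s, ‖(Polynomial.C c * Polynomial.X ^ a).coeff m‖ = if a = m then ‖c‖ else 0 := by
    intro m _
    rw [Polynomial.coeff_C_mul_X_pow]
    by_cases h : a = m
    · rw [if_pos h, if_pos h.symm]
    · rw [if_neg h, if_neg (fun h' => h h'.symm), norm_zero]
  rw [Finset.sum_congr rfl h1, Finset.sum_ite_eq]
  split_ifs
  · exact le_rfl
  · exact norm_nonneg c

theorem x2_shift {Q : Polynomial ℂ} {B : ℝ} (hQ : PB Q B) (a : ℕ) : PB (Polynomial.X ^ a * Q) B := by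
  intro s
  have h1 : ∑ m ∈ s, ‖(Polynomial.X ^ a * Q).coeff m‖ =
      ∑ m ∈ s.filter (fun m => a ≤ m), ‖Q.coeff (m - a)‖ := by
    rw [Finset.sum_filter]
    refine Finset.sum_congr rfl (fun m _ => ?_)
    rw [Polynomial.coeff_X_pow_mul']
    by_cases h : a ≤ m
    · rw [if_pos h, if_pos h]
    · rw [if_neg h, if_neg h, norm_zero]
  have h2 : ∑ m ∈ s.filter (fun m => a ≤ m), ‖Q.coeff (m - a)‖ =
      ∑ j ∈ (s.filter (fun m => a ≤ m)).image (fun m => m - a), ‖Q.coeff j‖ := by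
    rw [Finset.sum_image]
    intro x hx y hy h
    have hx' := (Finset.mem_filter.1 (Finset.mem_coe.1 hx)).2
    have hy' := (Finset.mem_filter.1 (Finset.mem_coe.1 hy)).2
    have h' : x - a = y - a := h
    omega
  rw [h1, h2]
  exact hQ _

theorem pb_mul {P Q : Polynomial ℂ} {A B : ℝ} (hP : PB P A) (hQ : PB Q B) (hA : 0 ≤ A) :
    PB (P * Q) (A * B) := by
  intro s
  have h2 : P * Q = ∑ a ∈ P.support, Polynomial.C (P.coeff a) * (Polynomial.X ^ a * Q) := by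
    conv_lhs => rw [P.as_sum_support_C_mul_X_pow, Finset.sum_mul]
    exact Finset.sum_congr rfl (fun a _ => mul_assoc _ _ _)
  have h1 : ∀ m, ‖(P * Q).coeff m‖ ≤
      ∑ a ∈ P.support, ‖P.coeff a‖ * ‖(Polynomial.X ^ a * Q).coeff m‖ := by
    intro m
    rw [h2, Polynomial.finsetSum_coeff]
    refine (norm_sum_le _ _).trans (Finset.sum_le_sum (fun a _ => ?_))
    rw [Polynomial.coeff_C_mul, norm_mul]
  calc ∑ m ∈ s, ‖(P * Q).coeff m‖
      ≤ ∑ m ∈ s, ∑ a ∈ P.support, ‖P.coeff a‖ * ‖(Polynomial.X ^ a * Q).coeff m‖ :=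
        Finset.sum_le_sum (fun m _ => h1 m)
    _ = ∑ a ∈ P.support, ‖P.coeff a‖ * ∑ m ∈ s, ‖(Polynomial.X ^ a * Q).coeff m‖ := by
        rw [Finset.sum_comm]
        exact Finset.sum_congr rfl (fun a _ => (Finset.mul_sum _ _ _).symm)
    _ ≤ ∑ a ∈ P.support, ‖P.coeff a‖ * B :=
        Finset.sum_le_sum (fun a _ => mul_le_mul_of_nonneg_left (x2_shift hQ a s) (norm_nonneg _))
    _ = (∑ a ∈ P.support, ‖P.coeff a‖) * B := (Finset.sum_mul _ _ _).symm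
    _ ≤ A * B := mul_le_mul_of_nonneg_right (hP _) (x2_nonneg hQ)

theorem x2_zk : ‖zk‖ ≤ 1 := by
  unfold zk
  rw [norm_div, norm_one, norm_mul, norm_mul, Complex.norm_I, Complex.norm_real, Complex.norm_ofNat,
    mul_one, Real.norm_of_nonneg Real.pi_pos.le, div_le_one (by positivity)]
  linarith [Real.pi_gt_three]

theorem zf_pb (k : ℕ) {y : ℝ} (hy : 0 ≤ y) : PB (zf k (y : ℂ)) ((((k : ℝ) + 1) * (y + 1)) ^ 2) := by
  have hk : (0 : ℝ) ≤ k := Nat.cast_nonneg k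
  have hk1 : ‖(k : ℂ) + 1‖ = (k : ℝ) + 1 := by
    have : (k : ℂ) + 1 = (((k : ℝ) + 1 : ℝ) : ℂ) := by push_cast; ring
    rw [this, Complex.norm_real, Real.norm_of_nonneg (by positivity)]
  have h0 : PB (Polynomial.C ((y : ℂ) ^ 2)) (y ^ 2) := by
    have h1 := x2_mon ((y : ℂ) ^ 2) 0
    rw [pow_zero, mul_one, norm_pow, Complex.norm_real, Real.norm_of_nonneg hy] at h1
    exact h1
  have h1 : PB (Polynomial.C (2 * ((k : ℂ) + 1) * zk * y) * Polynomial.X) (2 * ((k : ℝ) + 1) * y) := by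
    have h1 := x2_mon (2 * ((k : ℂ) + 1) * zk * y) 1
    rw [pow_one] at h1
    refine x2_mono h1 ?_
    rw [norm_mul, norm_mul, norm_mul, hk1, Complex.norm_real, Real.norm_of_nonneg hy,
      Complex.norm_ofNat]
    refine mul_le_mul_of_nonneg_right ?_ hy
    exact mul_le_of_le_one_right (by positivity) x2_zk
  have h2 : PB (Polynomial.C ((k : ℂ) * ((k : ℂ) + 1) * zk ^ 2) * Polynomial.X ^ 2)
      ((k : ℝ) * ((k : ℝ) + 1)) := by
    refine x2_mono (x2_mon ((k : ℂ) * ((k : ℂ) + 1) * zk ^ 2) 2) ?_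
    rw [norm_mul, norm_mul, norm_pow, hk1, Complex.norm_natCast]
    exact mul_le_of_le_one_right (by positivity) (pow_le_one₀ (norm_nonneg _) x2_zk)
  refine x2_mono (x2_add (x2_add h0 h1) h2) ?_
  nlinarith [mul_nonneg hk hy, mul_nonneg (mul_nonneg hk hk) hy, mul_nonneg hk (mul_nonneg hy hy),
    mul_nonneg (mul_nonneg hk hk) (mul_nonneg hy hy), mul_nonneg hk hk, mul_nonneg hy hy]

variable {ι Λ : Type*} [Fintype ι] [DecidableEq ι]

theorem x2_prod {α : Type*} [DecidableEq α] (k : ℕ) (y : α → ℝ) (hy : ∀ j, 0 ≤ y j) (S : Finset α) :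
    PB (∏ j ∈ S, zf k (y j : ℂ)) (∏ j ∈ S, (((k : ℝ) + 1) * (y j + 1)) ^ 2) := by
  induction S using Finset.induction_on with
  | empty =>
    rw [Finset.prod_empty, Finset.prod_empty]
    have h1 := x2_mon 1 0
    rwa [pow_zero, mul_one, norm_one, Polynomial.C_1] at h1
  | insert a S ha ih =>
    rw [Finset.prod_insert ha, Finset.prod_insert ha]
    exact pb_mul (zf_pb k (hy a)) ih (by positivity)

theorem zQ_pb (A : KArr ι Λ) {N : ℕ} (hN : 0 < N) (k : ℕ) (i : ι) (ξ : Λ) :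
    PB (A.zQ N k i ξ) (((k : ℝ) + 1) ^ (2 * Fintype.card ι) *
      (1 + ((A.tr ξ : ℝ) - A.nu ξ i)) ^ (2 * Fintype.card ι)) := by
  have hN' : (1 : ℝ) ≤ N := by exact_mod_cast hN
  have hN0 : (0 : ℝ) < N := by linarith
  have hs0 := KArr.XF_nonneg A i ξ
  have hy : ∀ j, 0 ≤ A.nu ξ j / (N : ℝ) := fun j => div_nonneg (A.nu_pos ξ j).le hN0.le
  have h1 : A.zQ N k i ξ = ∏ j ∈ Finset.univ.erase i, zf k (((A.nu ξ j / (N : ℝ) : ℝ)) : ℂ) := by
    unfold KArr.zQ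
    refine Finset.prod_congr rfl fun j _ => ?_
    rw [Complex.ofReal_div, Complex.ofReal_natCast]
  rw [h1]
  refine x2_mono (x2_prod k _ hy _) ?_
  have hk : (0 : ℝ) ≤ k := Nat.cast_nonneg k
  have hle : ∀ j ∈ Finset.univ.erase i, (((k : ℝ) + 1) * (A.nu ξ j / (N : ℝ) + 1)) ^ 2 ≤
      (((k : ℝ) + 1) * (1 + ((A.tr ξ : ℝ) - A.nu ξ i))) ^ 2 := by
    intro j hj
    have h2 : A.nu ξ j ≤ (A.tr ξ : ℝ) - A.nu ξ i := by
      rw [KArr.XF_sum]
      exact Finset.single_le_sum (f := fun j => A.nu ξ j) (fun j _ => (A.nu_pos ξ j).le) hj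
    have h3 : A.nu ξ j / (N : ℝ) ≤ A.nu ξ j := div_le_self (A.nu_pos ξ j).le hN'
    have h4 := hy j
    refine pow_le_pow_left₀ (by positivity) ?_ 2
    refine mul_le_mul_of_nonneg_left ?_ (by positivity)
    linarith
  refine (Finset.prod_le_prod (fun j _ => by positivity) hle).trans ?_
  rw [Finset.prod_const, ← pow_mul, ← mul_pow]
  refine pow_le_pow_right₀ ?_ ?_
  · have : (1 : ℝ) * 1 ≤ ((k : ℝ) + 1) * (1 + ((A.tr ξ : ℝ) - A.nu ξ i)) :=
      mul_le_mul (by linarith) (by linarith) zero_le_one (by positivity)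
    linarith
  · have h5 : (Finset.univ.erase i).card ≤ Fintype.card ι := by
      rw [← Finset.card_univ]
      exact Finset.card_le_card (Finset.erase_subset _ _)
    omega

theorem zQ_coeff_le (A : KArr ι Λ) {N : ℕ} (hN : 0 < N) (k : ℕ) (i : ι) (ξ : Λ) (m : ℕ) :
    ‖(A.zQ N k i ξ).coeff m‖ ≤ ((k : ℝ) + 1) ^ (2 * Fintype.card ι) *
      (1 + ((A.tr ξ : ℝ) - A.nu ξ i)) ^ (2 * Fintype.card ι) := by
  have h1 := zQ_pb A hN k i ξ {m}
  rwa [Finset.sum_singleton] at h1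

theorem zQ_eval_le (A : KArr ι Λ) {N : ℕ} (hN : 0 < N) (k : ℕ) (i : ι) (ξ : Λ) (x : ℂ) :
    ‖(A.zQ N k i ξ).eval x‖ ≤ (2 * Fintype.card ι * (1 + ‖x‖) ^ (2 * Fintype.card ι)) *
      (((k : ℝ) + 1) ^ (2 * Fintype.card ι) *
      (1 + ((A.tr ξ : ℝ) - A.nu ξ i)) ^ (2 * Fintype.card ι)) := by
  have hs0 := KArr.XF_nonneg A i ξ
  rw [zQ_eval_sum]
  refine (norm_sum_le _ _).trans ?_
  have h1 : ∀ m ∈ Finset.range (2 * Fintype.card ι), ‖(A.zQ N k i ξ).coeff m * x ^ m‖ ≤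
      (1 + ‖x‖) ^ (2 * Fintype.card ι) * (((k : ℝ) + 1) ^ (2 * Fintype.card ι) *
      (1 + ((A.tr ξ : ℝ) - A.nu ξ i)) ^ (2 * Fintype.card ι)) := by
    intro m hm
    rw [norm_mul, norm_pow, mul_comm]
    refine mul_le_mul ?_ (zQ_coeff_le A hN k i ξ m) (norm_nonneg _) (by positivity)
    calc ‖x‖ ^ m ≤ (1 + ‖x‖) ^ m := pow_le_pow_left₀ (norm_nonneg _) (by linarith) m
      _ ≤ (1 + ‖x‖) ^ (2 * Fintype.card ι) :=
        pow_le_pow_right₀ (by linarith [norm_nonneg x]) (Finset.mem_range.1 hm).le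
  refine (Finset.sum_le_card_nsmul _ _ _ h1).trans ?_
  rw [Finset.card_range, nsmul_eq_mul]
  push_cast
  rw [mul_assoc (2 * (Fintype.card ι : ℝ))]

end H36H
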