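import Pool.Agent.Lib.H36T.X2

set_option autoImplicit false

/-!
# H36T, chunk X3 (S): the families are admissible

`A.xfam_gen` (Lib/H36H/XF.lean) with `q ξ = e(σ tr/N) * (zQ ..).eval x`, resp. `.coeff m`, `D = 2 d`, and the bounds of
X2; `‖e(..)‖ = 1` (`KArr.XF_ex`). See `KArr.xfam`, `KArr.xfamT` at the end of XF.lean.
`zpow_sum`: `A.xfam_gen` with `q ξ = ((1 + s)^D : ℝ)`, `.sum`.
-/

namespace H36H

open H53M H94M Function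

variable {ι Λ : Type*} [Fintype ι] [DecidableEq ι]

theorem KArr.zfam (A : KArr ι Λ) {N k : ℕ} (hN : 0 < N) (hd : 2 ≤ Fintype.card ι) (hf : A.XFam k)
    (σ : ℤ) (i : ι) (x : ℂ) : X.Fam (k - 1) (A.zc N k σ i x) (A.xu N i) (A.xv N i) := by
  have h : A.zc N k σ i x = fun ξ => (A.c ξ : ℂ) * (X.ex ((σ : ℂ) * (A.tr ξ : ℂ) / (N : ℂ)) *
      (A.zQ N k i ξ).eval x) := by
    funext ξ
    unfold KArr.zc
    rw [mul_assoc]
  rw [h]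
  refine A.xfam_gen hN hd hf i _ ((2 * Fintype.card ι * (1 + ‖x‖) ^ (2 * Fintype.card ι)) *
    ((k : ℝ) + 1) ^ (2 * Fintype.card ι)) (2 * Fintype.card ι) fun ξ => ?_
  rw [norm_mul, KArr.XF_ex, one_mul]
  refine (zQ_eval_le A hN k i ξ x).trans (le_of_eq ?_)
  ring

theorem KArr.zfamM (A : KArr ι Λ) {N k : ℕ} (hN : 0 < N) (hd : 2 ≤ Fintype.card ι) (hf : A.XFam k)
    (i : ι) (m : ℕ) : X.Fam (k - 1) (A.zcm N k i m) (A.xu N i) (A.xv N i) := by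
  have h : A.zcm N k i m = fun ξ => (A.c ξ : ℂ) *
      (X.ex (((-1 : ℤ) : ℂ) * (A.tr ξ : ℂ) / (N : ℂ)) * (A.zQ N k i ξ).coeff m) := by
    funext ξ
    unfold KArr.zcm
    rw [mul_assoc]
  rw [h]
  refine A.xfam_gen hN hd hf i _ (((k : ℝ) + 1) ^ (2 * Fintype.card ι)) (2 * Fintype.card ι)
    fun ξ => ?_
  rw [norm_mul, KArr.XF_ex, one_mul]
  exact zQ_coeff_le A hN k i ξ m

theorem KArr.zpow_sum (A : KArr ι Λ) {N k : ℕ} (hN : 0 < N) (hd : 2 ≤ Fintype.card ι)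
    (hf : A.XFam k) (i : ι) (D : ℕ) {y : ℝ} (hy : 0 < y) : Summable fun ξ =>
      |(A.c ξ : ℝ)| * (1 + ((A.tr ξ : ℝ) - A.nu ξ i)) ^ D * (A.xv N i ξ)⁻¹ ^ (k - 1) *
        Real.exp (-(2 * Real.pi * A.xu N i ξ * y)) := by
  have hq : ∀ ξ, ‖(((1 + ((A.tr ξ : ℝ) - A.nu ξ i)) ^ D : ℝ) : ℂ)‖ =
      (1 + ((A.tr ξ : ℝ) - A.nu ξ i)) ^ D := by
    intro ξ
    rw [Complex.norm_real, Real.norm_of_nonneg]
    have := A.XF_nonneg i ξ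
    exact pow_nonneg (by linarith) D
  have h := (A.xfam_gen hN hd hf i (fun ξ => (((1 + ((A.tr ξ : ℝ) - A.nu ξ i)) ^ D : ℝ) : ℂ)) 1 D
    (fun ξ => by
      show ‖(((1 + ((A.tr ξ : ℝ) - A.nu ξ i)) ^ D : ℝ) : ℂ)‖ ≤
        1 * (1 + ((A.tr ξ : ℝ) - A.nu ξ i)) ^ D
      rw [hq ξ, one_mul])).sum y hy
  refine h.congr fun ξ => ?_
  rw [norm_mul, hq ξ, Complex.norm_intCast]

end H36H
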