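import Pool.Agent.Lib.H36T.D0
import Pool.Agent.Lib.H36H.XL

set_option autoImplicit false

/-!
# H36T, chunk X4 (M): the lowering operators on `G_a`, exponents `2`

As `lowL_one` (Lib/H36H/XL.lean), with `a j = 2` for `j ∈ l`: `kc k 2 0 = 1`, `kc k 2 1 = 2 (k + 1)`,
`kc k 2 2 = k (k + 1)` (`kc k a i = a.choose i * (k + a - 1).descFactorial i`), so
`lowL k s (j :: l) t a = L (update a j 2) + 2 (k+1) s_j L (update a j 1) + k (k+1) s_j² L (update a j 0)`, `L = lowL k s l t`
(`lowV_eq`, `Finset.sum_range_succ`); three series are added. `xl_prod` (XL.lean) splits off the factor `ν_j^b`.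
-/

namespace H36H

open H53M H94M Function

variable {ι Λ : Type*} [Fintype ι] [DecidableEq ι]

/-- The terms after lowering, exponents `2`. -/
noncomputable def lterm2 (A : KArr ι Λ) (k : ℕ) (s : ι → ℂ) (S : Finset ι) (a : ι → ℕ) (z : ι → ℂ)
    (ξ : Λ) : ℂ :=
  (A.c ξ : ℂ) * (∏ j ∈ Finset.univ \ S, (A.nu ξ j : ℂ) ^ a j) *
    (∏ j ∈ S, ((A.nu ξ j : ℂ) ^ 2 + 2 * ((k : ℂ) + 1) * s j * (A.nu ξ j : ℂ) +
      (k : ℂ) * ((k : ℂ) + 1) * s j ^ 2)) *
    Complex.exp (2 * Real.pi * Complex.I * ∑ i, (A.nu ξ i : ℂ) * z i)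

theorem xl_kc21 (k : ℕ) : kc k 2 1 = 2 * (k + 1) := by
  unfold kc
  rw [Nat.choose_one_right, Nat.descFactorial_one]
  congr 1

theorem xl_kc22 (k : ℕ) (hk : 1 ≤ k) : kc k 2 2 = k * (k + 1) := by
  unfold kc
  rw [Nat.choose_self, one_mul, Nat.descFactorial_succ, Nat.descFactorial_one]
  have h1 : k + 2 - 1 = k + 1 := rfl
  have h2 : k + 1 - 1 = k := rfl
  rw [h1, h2]

theorem lowL_two (A : KArr ι Λ) (k : ℕ) (hk : 1 ≤ k) (s : ι → ℂ) (z : ι → ℂ)
    (hz : ∀ i, 0 < (z i).im)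
    (l : List ι) (hl : l.Nodup) (a : ι → ℕ) (ha : ∀ j ∈ l, a j = 2) :
    Summable (lterm2 A k s l.toFinset a z) ∧
      lowL k s l (fun a' => A.GA a' z) a = ∑' ξ, lterm2 A k s l.toFinset a z ξ := by
  induction l generalizing a with
  | nil =>
    have h : lterm2 A k s ([] : List ι).toFinset a z = A.term a z := by
      funext ξ
      unfold lterm2 KArr.term
      simp
    rw [h]
    exact ⟨A.summable_term a z hz, rfl⟩
  | cons j l ih =>
    obtain ⟨hj, hl'⟩ := List.nodup_cons.1 hl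
    have hjS : j ∉ l.toFinset := fun h => hj (List.mem_toFinset.1 h)
    have haj : a j = 2 := ha j List.mem_cons_self
    have hupd : ∀ b : ℕ, ∀ i ∈ l, update a j b i = 2 := by
      intro b i hi
      have hij : i ≠ j := fun h => hj (h ▸ hi)
      rw [update_of_ne hij]
      exact ha i (List.mem_cons_of_mem j hi)
    obtain ⟨s2, e2⟩ := ih hl' (update a j 2) (hupd 2)
    obtain ⟨s1, e1⟩ := ih hl' (update a j 1) (hupd 1)
    obtain ⟨s0, e0⟩ := ih hl' (update a j 0) (hupd 0)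
    have hterm : lterm2 A k s (j :: l).toFinset a z = fun ξ =>
        lterm2 A k s l.toFinset (update a j 2) z ξ +
          2 * ((k : ℂ) + 1) * s j * lterm2 A k s l.toFinset (update a j 1) z ξ +
          (k : ℂ) * ((k : ℂ) + 1) * s j ^ 2 * lterm2 A k s l.toFinset (update a j 0) z ξ := by
      funext ξ
      unfold lterm2
      rw [xl_prod A l.toFinset a j hjS 2 ξ, xl_prod A l.toFinset a j hjS 1 ξ,
        xl_prod A l.toFinset a j hjS 0 ξ, List.toFinset_cons, Finset.prod_insert hjS]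
      ring
    rw [hterm]
    refine ⟨(s2.add (s1.mul_left _)).add (s0.mul_left _), ?_⟩
    rw [Summable.tsum_add (s2.add (s1.mul_left _)) (s0.mul_left _),
      Summable.tsum_add s2 (s1.mul_left _), tsum_mul_left, tsum_mul_left, ← e2, ← e1, ← e0,
      lowL_cons, lowV_eq, haj,
      Finset.sum_range_succ, Finset.sum_range_succ, Finset.sum_range_one, kc_zero, xl_kc21,
      xl_kc22 k hk]
    simp

end H36H
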