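import Pool.Agent.Lib.H36T.X1
import Pool.Agent.Lib.H36T.X4
import Pool.Agent.Lib.H53N.X

set_option autoImplicit false

/-!
# H36T, chunk X5 (M): the transformation law in two variables

COPY of `KArr.xtrans1` (Lib/H53N/X.lean, 110 lines) with the exponents `ztA i = update (fun _ => 2) i 0`, `lowL_two`,
`lterm2`: the product of the denominators is `t^((k+4)(d-1)) w^k`; `c0 = ((N^(d-1))²)⁻¹`;
`Π_{j≠i} (ν_j/N)² = c0 Π ν_j²`, and with `s_j = N/(2πi t)` (`sz`), `zk * t⁻¹ = s_j/N`: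
`Π_{j≠i} ((ν_j/N)² + 2(k+1) (zk t⁻¹) (ν_j/N) + k(k+1) (zk t⁻¹)²) = c0 Π (ν_j² + 2(k+1) s_j ν_j + k(k+1) s_j²)`
(`zQ_eval`, `zQ_eval_zero`).
-/

namespace H36H

open H53M H94M Function

variable {ι Λ : Type*} [Fintype ι] [DecidableEq ι]

/-- The exponents. -/
def ztA (i : ι) : ι → ℕ := update (fun _ => 2) i 0

theorem KArr.ztrans (A : KArr ι Λ) {N k : ℕ} (hN : 0 < N) (hk : 1 ≤ k) (hT : DTransI1 N k A.G)
    (i : ι) {t w : ℂ} (ht : 0 < t.im) (hw : 0 < w.im) :
    X.F (A.zc N k 1 i 0) (A.xu N i) (A.xv N i) 0 (-1 / t) (-1 / w) =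
      t ^ ((k + 4) * (Fintype.card ι - 1)) * w ^ k *
        X.F (A.zc N k (-1) i t⁻¹) (A.xu N i) (A.xv N i) 0 t w := by
  have hN0 : (N : ℂ) ≠ 0 := by exact_mod_cast hN.ne'
  have hNr : (0 : ℝ) < N := by exact_mod_cast hN
  have ht0 : t ≠ 0 := fun h => by simp [h] at ht
  have hw0 : w ≠ 0 := fun h => by simp [h] at hw
  have hpi : (2 * Real.pi * Complex.I : ℂ) ≠ 0 := Complex.two_pi_I_ne_zero
  obtain ⟨z, hz⟩ : ∃ z : ι → ℂ, z = update (fun _ => (t - 1) / N) i ((w - 1) / N) := ⟨_, rfl⟩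
  have hzi : z i = (w - 1) / N := by rw [hz, update_self]
  have hzj : ∀ j, j ≠ i → z j = (t - 1) / N := fun j hj => by rw [hz, update_of_ne hj]
  have him : ∀ x : ℂ, 0 < x.im → 0 < ((x - 1) / N).im := by
    intro x hx
    rw [Complex.div_natCast_im]
    have : (x - 1).im = x.im := by simp
    rw [this]
    exact div_pos hx hNr
  have hzpos : ∀ j, 0 < (z j).im := by
    intro j
    by_cases hj : j = i
    · rw [hj, hzi]
      exact him w hw
    · rw [hzj j hj]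
      exact him t ht
  obtain ⟨l, hl⟩ : ∃ l : List ι, l = (Finset.univ.erase i).toList := ⟨_, rfl⟩
  have hln : l.Nodup := by rw [hl]; exact Finset.nodup_toList _
  have hmem : ∀ j, j ∈ l ↔ j ≠ i := fun j => by rw [hl]; simp
  have hls : l.toFinset = Finset.univ.erase i := by rw [hl]; simp
  have ha0 : ∀ j, j ∉ l → ztA i j = 0 := by
    intro j hj
    rw [hmem, not_not] at hj
    rw [hj, ztA, update_self]
  have ha1 : ∀ j ∈ l, ztA i j = 2 := by
    intro j hj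
    rw [hmem] at hj
    rw [ztA, update_of_ne hj]
  have h1 := KT_list1 hk A hT (α := 1) (β := 0) (C := N) (D := 1) (by ring) (dvd_refl _)
    (by rw [sub_self]; exact dvd_zero _) l hln
    (ztA i) ha0 z hzpos
  obtain ⟨h2, h3⟩ := lowL_two A k hk (sz (N : ℤ) 1 z) z hzpos l hln (ztA i) ha1
  rw [h3, hls] at h1
  have hdt : ∀ j, j ≠ i → (((N : ℤ) : ℂ) * z j + ((1 : ℤ) : ℂ)) = t := by
    intro j hj
    rw [hzj j hj]
    push_cast
    field_simp
    ring
  have hdi : (((N : ℤ) : ℂ) * z i + ((1 : ℤ) : ℂ)) = w := by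
    rw [hzi]
    push_cast
    field_simp
    ring
  have hprod : ∏ j, (((N : ℤ) : ℂ) * z j + ((1 : ℤ) : ℂ)) ^ (k + 2 * ztA i j) =
      t ^ ((k + 4) * (Fintype.card ι - 1)) * w ^ k := by
    rw [← Finset.mul_prod_erase _ _ (Finset.mem_univ i), hdi]
    have e1 : ztA i i = 0 := by rw [ztA, update_self]
    have e2 : ∀ j ∈ Finset.univ.erase i,
        (((N : ℤ) : ℂ) * z j + ((1 : ℤ) : ℂ)) ^ (k + 2 * ztA i j) = t ^ (k + 4) := by
      intro j hj
      rw [hdt j (Finset.ne_of_mem_erase hj), ztA, update_of_ne (Finset.ne_of_mem_erase hj)]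
    rw [Finset.prod_congr rfl e2, Finset.prod_const, Finset.card_erase_of_mem (Finset.mem_univ i),
      Finset.card_univ, ← pow_mul, e1, mul_zero, add_zero, mul_comm]
  rw [hprod] at h1
  obtain ⟨c0, hc0⟩ : ∃ c0 : ℂ, c0 = ∏ j ∈ Finset.univ.erase i, ((N : ℂ) ^ 2)⁻¹ := ⟨_, rfl⟩
  have hL : X.F (A.zc N k 1 i 0) (A.xu N i) (A.xv N i) 0 (-1 / t) (-1 / w) =
      c0 * A.GA (ztA i) (fun j => (((1 : ℤ) : ℂ) * z j + ((0 : ℤ) : ℂ)) /
        (((N : ℤ) : ℂ) * z j + ((1 : ℤ) : ℂ))) := by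
    unfold X.F KArr.GA
    rw [← tsum_mul_left]
    refine tsum_congr fun ξ => ?_
    unfold KArr.term KArr.zc
    have e1 : (fun j => (((1 : ℤ) : ℂ) * z j + ((0 : ℤ) : ℂ)) /
        (((N : ℤ) : ℂ) * z j + ((1 : ℤ) : ℂ))) =
        update (fun _ => (1 - 1 / t) / N) i ((1 - 1 / w) / N) := by
      funext j
      by_cases hj : j = i
      · rw [hj, hdi, update_self, hzi]
        push_cast
        field_simp
        ring
      · rw [hdt j hj, update_of_ne hj, hzj j hj]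
        push_cast
        field_simp
        ring
    have e2 : ∏ j, (A.nu ξ j : ℂ) ^ ztA i j = ∏ j ∈ Finset.univ.erase i, (A.nu ξ j : ℂ) ^ 2 := by
      rw [← Finset.mul_prod_erase _ _ (Finset.mem_univ i)]
      have e3 : ztA i i = 0 := by rw [ztA, update_self]
      rw [e3, pow_zero, one_mul]
      refine Finset.prod_congr rfl fun j hj => ?_
      rw [ztA, update_of_ne (Finset.ne_of_mem_erase hj)]
    have e4 : X.ex ((((1 : ℤ) : ℂ)) * (A.tr ξ : ℂ) / (N : ℂ)) *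
        X.ex ((A.xu N i ξ : ℂ) * (-1 / t) + (A.xv N i ξ : ℂ) * (-1 / w)) =
        Complex.exp (2 * Real.pi * Complex.I * (((A.tr ξ : ℂ) - A.nu ξ i) * ((1 - 1 / t) / N) +
          A.nu ξ i * ((1 - 1 / w) / N))) := by
      rw [← X.ex_add]
      unfold X.ex KArr.xu KArr.xv
      congr 2
      push_cast
      field_simp
      ring
    have e5 : ∏ j ∈ Finset.univ.erase i, ((A.nu ξ j : ℂ) / (N : ℂ)) ^ 2 =
        c0 * ∏ j ∈ Finset.univ.erase i, (A.nu ξ j : ℂ) ^ 2 := by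
      rw [hc0, ← Finset.prod_mul_distrib]
      refine Finset.prod_congr rfl fun j _ => ?_
      rw [div_pow, div_eq_mul_inv, mul_comm]
    rw [e1, xt_sum, ← e4, e2, pow_zero, mul_one, zQ_eval_zero, e5]
    ring
  have hR : X.F (A.zc N k (-1) i t⁻¹) (A.xu N i) (A.xv N i) 0 t w =
      c0 * ∑' ξ, lterm2 A k (sz (N : ℤ) 1 z) (Finset.univ.erase i) (ztA i) z ξ := by
    unfold X.F
    rw [← tsum_mul_left]
    refine tsum_congr fun ξ => ?_
    unfold lterm2 KArr.zc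
    have e1 : (A.zQ N k i ξ).eval t⁻¹ =
        c0 * ∏ j ∈ Finset.univ.erase i, ((A.nu ξ j : ℂ) ^ 2 +
          2 * ((k : ℂ) + 1) * sz (N : ℤ) 1 z j * (A.nu ξ j : ℂ) +
          (k : ℂ) * ((k : ℂ) + 1) * sz (N : ℤ) 1 z j ^ 2) := by
      rw [zQ_eval, hc0, ← Finset.prod_mul_distrib]
      refine Finset.prod_congr rfl fun j hj => ?_
      unfold sz zk
      rw [hdt j (Finset.ne_of_mem_erase hj)]
      push_cast
      field_simp
    have e2 : ∏ j ∈ Finset.univ \ Finset.univ.erase i, (A.nu ξ j : ℂ) ^ ztA i j = 1 := by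
      refine Finset.prod_eq_one fun j hj => ?_
      have hji : j = i := by simpa using hj
      rw [hji, ztA, update_self, pow_zero]
    have e4 : X.ex ((((-1 : ℤ) : ℂ)) * (A.tr ξ : ℂ) / (N : ℂ)) *
        X.ex ((A.xu N i ξ : ℂ) * t + (A.xv N i ξ : ℂ) * w) =
        Complex.exp (2 * Real.pi * Complex.I * ∑ j, (A.nu ξ j : ℂ) * z j) := by
      rw [← X.ex_add, hz, xt_sum]
      unfold X.ex KArr.xu KArr.xv
      congr 2
      push_cast
      field_simp
      ring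
    rw [← e4, e2, e1, pow_zero]
    ring
  rw [hL, h1, hR]
  ring

end H36H
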