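import Pool.Agent.Lib.H36T.X1
import Pool.Agent.Lib.H36H.XS

set_option autoImplicit false

/-!
# H36T, chunk X6 (S): scaling of the frequencies

COPY of `KArr.xscale` (Lib/H36H/XS.lean) with `zc`, `zQ_eval_zero`: the factor is
`N^(2(d-1)) / N = N^(2d-3)` (`d = m + 2`: `2 d - 3 = 2 m + 1`, `card (univ.erase i) = m + 1`).
-/

namespace H36H

open H53M H94M Function

variable {ι Λ : Type*} [Fintype ι] [DecidableEq ι]

theorem KArr.zscale (A : KArr ι Λ) {N : ℕ} (k : ℕ) (hN : 0 < N) (hd : 2 ≤ Fintype.card ι) (i : ι)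
    (z : ℂ) :
    X.F (A.zc 1 k 0 i 0) (A.xu 1 i) (A.xv 1 i) 1 ((1 + z) / N) ((1 + z) / N) =
      (N : ℂ) ^ (2 * Fintype.card ι - 3) * X.F (A.zc N k 1 i 0) (A.xu N i) (A.xv N i) 1 z z := by
  have hN0 : (N : ℂ) ≠ 0 := by exact_mod_cast hN.ne'
  obtain ⟨m, hm⟩ : ∃ m, Fintype.card ι = m + 2 := ⟨Fintype.card ι - 2, by omega⟩
  have hcard : (Finset.univ.erase i).card = m + 1 := by
    rw [Finset.card_erase_of_mem (Finset.mem_univ i), Finset.card_univ, hm]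
    rfl
  unfold X.F
  rw [← tsum_mul_left]
  refine tsum_congr fun ξ => ?_
  have hν : ((A.nu ξ i : ℝ) : ℂ) ≠ 0 := by
    exact_mod_cast (A.nu_pos ξ i).ne'
  have hu1 : (A.xu 1 i ξ : ℂ) = (A.tr ξ : ℂ) - (A.nu ξ i : ℂ) := by
    unfold KArr.xu
    push_cast
    ring
  have hv1 : (A.xv 1 i ξ : ℂ) = (A.nu ξ i : ℂ) := by
    unfold KArr.xv
    push_cast
    ring
  have huN : (A.xu N i ξ : ℂ) = ((A.tr ξ : ℂ) - (A.nu ξ i : ℂ)) / N := by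
    unfold KArr.xu
    push_cast
    ring
  have hvN : (A.xv N i ξ : ℂ) = (A.nu ξ i : ℂ) / N := by
    unfold KArr.xv
    push_cast
    ring
  have hex : X.ex (((A.tr ξ : ℂ) - (A.nu ξ i : ℂ)) * ((1 + z) / N) +
      (A.nu ξ i : ℂ) * ((1 + z) / N)) = X.ex (((1 : ℤ) : ℂ) * (A.tr ξ : ℂ) / (N : ℂ)) *
      X.ex (((A.tr ξ : ℂ) - (A.nu ξ i : ℂ)) / N * z + (A.nu ξ i : ℂ) / N * z) := by
    rw [← X.ex_add]
    congr 1
    push_cast
    field_simp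
    ring
  have h0 : X.ex (((0 : ℤ) : ℂ) * (A.tr ξ : ℂ) / ((1 : ℕ) : ℂ)) = 1 := by
    unfold X.ex
    simp
  unfold KArr.zc
  rw [hu1, hv1, huN, hvN, hex, h0, hm, zQ_eval_zero, zQ_eval_zero]
  have hp1 : ∏ j ∈ Finset.univ.erase i, ((A.nu ξ j : ℂ) / ((1 : ℕ) : ℂ)) ^ 2 =
      ∏ j ∈ Finset.univ.erase i, (A.nu ξ j : ℂ) ^ 2 := by
    refine Finset.prod_congr rfl fun j _ => ?_
    push_cast
    ring
  have hpN : ∏ j ∈ Finset.univ.erase i, ((A.nu ξ j : ℂ) / (N : ℂ)) ^ 2 =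
      (∏ j ∈ Finset.univ.erase i, (A.nu ξ j : ℂ) ^ 2) / ((N : ℂ) ^ 2) ^ (m + 1) := by
    rw [← hcard, ← Finset.prod_const, ← Finset.prod_div_distrib]
    refine Finset.prod_congr rfl fun j _ => ?_
    rw [div_pow]
  have he : 2 * (m + 2) - 3 = 2 * m + 1 := by omega
  rw [hp1, hpN, he, ← pow_mul]
  have he2 : 2 * (m + 1) = (2 * m + 1) + 1 := by ring
  rw [he2, pow_succ (N : ℂ) (2 * m + 1)]
  field_simp

end H36H
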