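import Pool.Agent.Lib.H36T.X3

set_option autoImplicit false

/-!
# H36T, chunk X7 (M): `ht` on the diagonal

COPY of Lib/H36H/XH.lean with `zc 1 k 0 i 0`, `zQ_eval_zero`, `q3`, `ht`:
`ν_i⁻¹ Π_{j≠i} ν_j² = (Π ν)² (ν_i³)⁻¹`, and `Σ_i` of these is `q3/nm` (`A.q3_eq`, `A.nm_eq`).
-/

namespace H36H

open H53M H94M Function

variable {ι Λ : Type*} [Fintype ι] [DecidableEq ι]

/-- The term `Σ_i` of the diagonal series. -/
noncomputable def x7T (A : KArr ι Λ) (k : ℕ) (τ : ℂ) (ξ : Λ) : ℂ :=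
  ∑ i : ι, A.zc 1 k 0 i 0 ξ * ((A.xv 1 i ξ : ℂ)⁻¹) ^ 1 *
    X.ex ((A.xu 1 i ξ : ℂ) * τ + (A.xv 1 i ξ : ℂ) * τ)

theorem x7T_eq (A : KArr ι Λ) (k : ℕ) (τ : ℂ) (ξ : Λ) :
    x7T A k τ ξ = (((A.c ξ * A.q3 ξ : ℚ) / A.nm ξ : ℚ) : ℂ) *
      Complex.exp (2 * Real.pi * Complex.I * (A.tr ξ * τ)) := by
  have h1 : ∀ i : ι, A.zc 1 k 0 i 0 ξ * ((A.xv 1 i ξ : ℂ)⁻¹) ^ 1 *
      X.ex ((A.xu 1 i ξ : ℂ) * τ + (A.xv 1 i ξ : ℂ) * τ) =
      (A.c ξ : ℂ) * ((∏ j, (A.nu ξ j : ℂ)) ^ 2 * ((A.nu ξ i : ℂ) ^ 3)⁻¹) *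
        Complex.exp (2 * Real.pi * Complex.I * (A.tr ξ * τ)) := by
    intro i
    have hi : (A.nu ξ i : ℂ) ≠ 0 := by exact_mod_cast (A.nu_pos ξ i).ne'
    unfold KArr.zc KArr.xv KArr.xu
    rw [← Finset.mul_prod_erase _ _ (Finset.mem_univ i), zQ_eval_zero]
    have e1 : X.ex (((((A.tr ξ : ℝ) - A.nu ξ i) / ((1 : ℕ) : ℝ) : ℝ) : ℂ) * τ +
        ((A.nu ξ i / ((1 : ℕ) : ℝ) : ℝ) : ℂ) * τ) =
        Complex.exp (2 * Real.pi * Complex.I * (A.tr ξ * τ)) := by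
      unfold X.ex
      congr 2
      push_cast
      ring
    have e2 : X.ex (((0 : ℤ) : ℂ) * (A.tr ξ : ℂ) / ((1 : ℕ) : ℂ)) = 1 := by
      unfold X.ex
      simp
    rw [e1, e2]
    simp only [Nat.cast_one, div_one, mul_one, pow_one]
    rw [Finset.prod_pow]
    field_simp
  unfold x7T
  rw [Finset.sum_congr rfl fun i _ => h1 i, ← Finset.sum_mul, ← Finset.mul_sum, ← Finset.mul_sum]
  congr 1
  have h2 := congrArg (fun x : ℝ => (x : ℂ)) (A.q3_eq ξ)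
  have h3 := congrArg (fun x : ℝ => (x : ℂ)) (A.nm_eq ξ)
  push_cast at h2 h3
  have h0 : (∏ j, (A.nu ξ j : ℂ)) ≠ 0 :=
    Finset.prod_ne_zero_iff.2 fun j _ => by exact_mod_cast (A.nu_pos ξ j).ne'
  push_cast
  rw [h2, h3]
  field_simp

theorem x7_sum (A : KArr ι Λ) {k : ℕ} (hk : 2 ≤ k) (hd : 2 ≤ Fintype.card ι)
    (hf : A.XFam k) {τ : ℂ} (hτ : 0 < τ.im) : Summable (x7T A k τ) := by
  refine summable_sum fun i _ => ?_
  exact X.summable_F (A.zfam one_pos hd hf 0 i 0) (by omega) hτ hτ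

theorem x7_term (A : KArr ι Λ) (k : ℕ) (τ : ℂ) (n : ℕ) :
    PowerSeries.coeff n (ktoC A.ht) * Complex.exp (2 * Real.pi * Complex.I * (n * τ)) =
      ∑' y : {ξ // A.tr ξ = n}, x7T A k τ y := by
  have := A.finite_fib n
  have := Fintype.ofFinite {ξ // A.tr ξ = n}
  rw [tsum_fintype, PowerSeries.coeff_map, KArr.ht, PowerSeries.coeff_mk, map_sum, Finset.sum_mul]
  refine Finset.sum_bij' (fun ξ hξ => ⟨ξ, (A.mem_fib n ξ).1 hξ⟩) (fun y _ => y.1)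
    (fun _ _ => Finset.mem_univ _) (fun y _ => (A.mem_fib n y.1).2 y.2) (fun _ _ => rfl)
    (fun _ _ => rfl) fun ξ hξ => ?_
  have h1 : A.tr ξ = n := (A.mem_fib n ξ).1 hξ
  simp only [x7T_eq, h1]
  rfl

theorem KArr.ht_Cv (A : KArr ι Λ) {k : ℕ} (hk : 2 ≤ k) (hd : 2 ≤ Fintype.card ι)
    (hf : A.XFam k) : Cv (ktoC A.ht) := by
  intro z hz
  have h := (x7_sum A hk hd hf hz).norm
  rw [← (Equiv.sigmaFiberEquiv A.tr).summable_iff] at h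
  have h2 := (summable_sigma_of_nonneg (fun _ => norm_nonneg _)).1 h
  refine Summable.of_nonneg_of_le (fun n => norm_nonneg _) (fun n => ?_) h2.2
  rw [x7_term A k]
  exact norm_tsum_le_tsum_norm (h2.1 n)

theorem KArr.ht_ev (A : KArr ι Λ) {k : ℕ} (hk : 2 ≤ k) (hd : 2 ≤ Fintype.card ι)
    (hf : A.XFam k) {τ : ℂ} (hτ : 0 < τ.im) :
    ev (ktoC A.ht) τ = ∑ i : ι, X.F (A.zc 1 k 0 i 0) (A.xu 1 i) (A.xv 1 i) 1 τ τ := by
  have h := x7_sum A hk hd hf hτ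
  have h1 : ev (ktoC A.ht) τ = ∑' ξ, x7T A k τ ξ := by
    unfold ev
    rw [← (Equiv.sigmaFiberEquiv A.tr).tsum_eq]
    have h3 : Summable (fun p => x7T A k τ ((Equiv.sigmaFiberEquiv A.tr) p)) :=
      (Equiv.sigmaFiberEquiv A.tr).summable_iff.2 h
    rw [h3.tsum_sigma]
    exact tsum_congr fun n => x7_term A k τ n
  rw [h1]
  unfold x7T X.F
  exact Summable.tsum_finsetSum fun i _ =>
    X.summable_F (A.zfam one_pos hd hf 0 i 0) (by omega) hτ hτ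

end H36H
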