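import Pool.Agent.Lib.H36T.X3
import Pool.Agent.Lib.H36H.XS

set_option autoImplicit false

/-!
# H36T, chunk X8 (S/M): the polynomial `P_t`

COPY of Lib/H36H/XP.lean: `zF_pow` from `zQ_eval_sum`, `zfamM`, `X.summable_F`, `Summable.tsum_finsetSum`;
`zP_eval` as `xP_eval`; `zP_shift` as `xP_shift` (`A.xuv_shift hN`).
-/

namespace H36H

open H53M H94M Function

variable {ι Λ : Type*} [Fintype ι] [DecidableEq ι]

theorem KArr.zF_pow (A : KArr ι Λ) {N k : ℕ} (hN : 0 < N) (hd : 2 ≤ Fintype.card ι)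
    (hf : A.XFam k) (i : ι) (s : ℕ) (hs : s ≤ k - 1) (x : ℂ) {t : ℂ} (ht : 0 < t.im) :
    X.F (A.zc N k (-1) i x) (A.xu N i) (A.xv N i) s t t =
      ∑ m ∈ Finset.range (2 * Fintype.card ι),
        x ^ m * X.F (A.zcm N k i m) (A.xu N i) (A.xv N i) s t t := by
  have hsum : ∀ m ∈ Finset.range (2 * Fintype.card ι), Summable fun ξ =>
      x ^ m * (A.zcm N k i m ξ * ((A.xv N i ξ : ℂ)⁻¹) ^ s *
        X.ex ((A.xu N i ξ : ℂ) * t + (A.xv N i ξ : ℂ) * t)) := fun m _ =>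
    (X.summable_F (A.zfamM hN hd hf i m) hs ht ht).mul_left _
  unfold X.F
  have h := Summable.tsum_finsetSum hsum
  simp only [tsum_mul_left] at h
  rw [← h]
  refine tsum_congr fun ξ => ?_
  have hc : A.zc N k (-1) i x ξ =
      ∑ m ∈ Finset.range (2 * Fintype.card ι), x ^ m * A.zcm N k i m ξ := by
    unfold KArr.zc KArr.zcm
    rw [zQ_eval_sum, Finset.mul_sum]
    exact Finset.sum_congr rfl fun m _ => by ring
  rw [hc, Finset.sum_mul, Finset.sum_mul]
  exact Finset.sum_congr rfl fun m _ => by ring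

theorem KArr.zP_eval (A : KArr ι Λ) {N k : ℕ} (hN : 0 < N) (hd : 2 ≤ Fintype.card ι)
    (hf : A.XFam k) {t : ℂ} (ht : 0 < t.im) (x : ℂ) :
    (A.zP N k t).eval x = ∑ i : ι, ∑ l ∈ Finset.range (k - 1),
      (N : ℂ) ^ (2 * Fintype.card ι - 3) * (2 * Real.pi * Complex.I * X.co (k - 1) l * x ^ l *
        X.F (A.zc N k (-1) i x) (A.xu N i) (A.xv N i) (l + 1) t t) := by
  unfold KArr.zP
  rw [Polynomial.eval_finsetSum]
  refine Finset.sum_congr rfl fun i _ => ?_
  rw [Polynomial.eval_finsetSum]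
  refine Finset.sum_congr rfl fun l hl => ?_
  rw [Polynomial.eval_finsetSum, A.zF_pow hN hd hf i (l + 1) (by
    have := Finset.mem_range.mp hl
    omega) x ht, Finset.mul_sum, Finset.mul_sum]
  refine Finset.sum_congr rfl fun m _ => ?_
  simp only [Polynomial.eval_mul, Polynomial.eval_C, Polynomial.eval_pow, Polynomial.eval_X]
  rw [pow_add]
  ring

theorem KArr.zP_shift (A : KArr ι Λ) {N k : ℕ} (hN : 0 < N) (t : ℂ) (M : ℕ) :
    A.zP N k (t + N * M) = A.zP N k t := by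
  unfold KArr.zP X.F
  simp only [A.xuv_shift hN]

end H36H
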