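import Pool.Agent.Lib.H36T.X5
import Pool.Agent.Lib.H36T.X6
import Pool.Agent.Lib.H36T.X7
import Pool.Agent.Lib.H36T.X8

set_option autoImplicit false

/-!
# H36T, chunk X9 (M): the transformation of `ht`

COPY of `kapI_ne` (Lib/H36H/XE.lean) and `KArr.h_trans1` (Lib/H53N/X.lean): `ht_ev`, `zscale`, `transB3` with
`E = t^((k+4)(d-1))`, `ztrans`, `zfam`, `zP_eval`, `zY`, `kapT`; `(k + 4)(d - 1) + (k - 2) = v`.
-/

namespace H36H

open H53M H94M Function

variable {ι Λ : Type*} [Fintype ι] [DecidableEq ι]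

theorem kapT_ne {N : ℕ} (hN : 0 < N) (d : ℕ) {k : ℕ} (hk : 2 ≤ k) : kapT N d k ≠ 0 := by
  have h1 := X.kap_ne (k - 1)
  have h2 : kapT N d k = (N : ℂ) ^ (2 * d - 3) * X.kap (k - 1) := by
    unfold kapT X.kap
    have e : k - 1 - 1 = k - 2 := by omega
    rw [e]
    ring
  rw [h2]
  exact mul_ne_zero (pow_ne_zero _ (by exact_mod_cast hN.ne')) h1

theorem KArr.ht_trans (A : KArr ι Λ) {N k v : ℕ} (hN : 0 < N) (hk : 2 ≤ k)
    (hd : 2 ≤ Fintype.card ι) (hw : v + 6 = Fintype.card ι * k + 4 * Fintype.card ι)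
    (hT : DTransI1 N k A.G) (hf : A.XFam k) {t : ℂ} (ht : 0 < t.im) :
    ev (ktoC A.ht) ((1 + -1 / t) / N) = t ^ v *
      ((A.zP N k t).eval t⁻¹ +
        kapT N (Fintype.card ι) k * t⁻¹ ^ (k - 2) * A.zY N k t t⁻¹) := by
  have ht0 : t ≠ 0 := X.X3_ne ht
  have hK1 : k - 1 + 1 = k := by omega
  have hstep : ∀ i : ι, X.F (A.zc 1 k 0 i 0) (A.xu 1 i) (A.xv 1 i) 1 ((1 + -1 / t) / N)
      ((1 + -1 / t) / N) = (N : ℂ) ^ (2 * Fintype.card ι - 3) * (2 * Real.pi * Complex.I *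
        t ^ ((k + 4) * (Fintype.card ι - 1)) *
        (∑ j ∈ Finset.range (k - 1), X.co (k - 1) j * t ^ (k - 1 - 1 - j) *
          X.F (A.zc N k (-1) i t⁻¹) (A.xu N i) (A.xv N i) (j + 1) t t -
          X.co (k - 1) (k - 1 - 1) *
            X.L (A.zc N k (-1) i t⁻¹) (A.xu N i) (A.xv N i) (k - 1) t)) := by
    intro i
    rw [A.zscale k hN hd i, transB3 (A.zfam hN hd hf (-1) i t⁻¹) (A.zfam hN hd hf 1 i 0)
      (by omega) ht (t ^ ((k + 4) * (Fintype.card ι - 1))) (fun w hw => by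
        rw [A.ztrans hN (by omega) hT i ht hw, hK1])]
  rw [A.ht_ev hk hd hf (XN4_im2 hN (X.X13_im ht)), A.zP_eval hN hd hf ht]
  unfold KArr.zY kapT
  rw [Finset.sum_congr rfl fun i _ => hstep i, Finset.mul_sum, mul_add, Finset.mul_sum,
    Finset.mul_sum, ← Finset.sum_add_distrib]
  refine Finset.sum_congr rfl fun i _ => ?_
  rw [mul_sub, mul_sub, sub_eq_add_neg, Finset.mul_sum, Finset.mul_sum, Finset.mul_sum]
  have hpow : (k + 4) * (Fintype.card ι - 1) + (k - 2) = v := by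
    obtain ⟨d, hd'⟩ : ∃ d, Fintype.card ι = d + 2 := ⟨Fintype.card ι - 2, by omega⟩
    obtain ⟨m, rfl⟩ : ∃ m, k = m + 2 := ⟨k - 2, by omega⟩
    rw [hd'] at hw ⊢
    have e1 : d + 2 - 1 = d + 1 := by omega
    have e2 : m + 2 - 2 = m := by omega
    rw [e1, e2]
    nlinarith [hw]
  congr 1
  · refine Finset.sum_congr rfl fun j hj => ?_
    have hj' : j ≤ k - 2 := by
      have := Finset.mem_range.mp hj
      omega
    have e2 : t ^ v = t ^ ((k + 4) * (Fintype.card ι - 1)) * t ^ (k - 1 - 1 - j) * t ^ j := by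
      rw [← pow_add, ← pow_add, ← hpow]
      congr 1
      omega
    have e3 : t ^ j * t⁻¹ ^ j = 1 := by
      rw [← mul_pow, mul_inv_cancel₀ ht0, one_pow]
    rw [e2]
    linear_combination (-((N : ℂ) ^ (2 * Fintype.card ι - 3) * (2 * Real.pi * Complex.I *
      X.co (k - 1) j * X.F (A.zc N k (-1) i t⁻¹) (A.xu N i) (A.xv N i) (j + 1) t t) *
      (t ^ ((k + 4) * (Fintype.card ι - 1)) * t ^ (k - 1 - 1 - j)))) * e3
  · have e2 : t ^ v = t ^ ((k + 4) * (Fintype.card ι - 1)) * t ^ (k - 2) := by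
      rw [← pow_add, hpow]
    have e3 : t ^ (k - 2) * t⁻¹ ^ (k - 2) = 1 := by
      rw [← mul_pow, mul_inv_cancel₀ ht0, one_pow]
    have e4 : k - 1 - 1 = k - 2 := by omega
    rw [e2, e4]
    linear_combination ((N : ℂ) ^ (2 * Fintype.card ι - 3) * (2 * Real.pi * Complex.I *
      X.co (k - 1) (k - 2) * X.L (A.zc N k (-1) i t⁻¹) (A.xu N i) (A.xv N i) (k - 1) t) *
      t ^ ((k + 4) * (Fintype.card ι - 1))) * e3

end H36H
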